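import Pool.Agent.Helper21K9.WO.Stm
import Pool.Agent.Helper21K9.OD.Dens

/-! [DENSW] A positive proportion of the integral coverings is good at all primes. -/

set_option autoImplicit false
set_option linter.unusedSectionVars false
set_option linter.unusedVariables false

open MvPolynomial

namespace Pool.Agent.Helper21K9.WO

open Pool.Agent.R187.WC Pool.Agent.Helper21K9.SV Pool.Agent.Helper21K9.OD

theorem mono_eq {R : Type} [CommRing R] {n : ℕ} (k : ℕ) (β : Fin (n + 1) →₀ ℕ) :
    (X none ^ k * rename some (monomial β 1) : MvPolynomial (Option (Fin (n + 1))) R) =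
      monomial (Finsupp.single none k + β.mapDomain some) 1 := by
  rw [rename_monomial, X_pow_eq_monomial, monomial_mul, one_mul]

theorem mono_none {n : ℕ} (k : ℕ) (β : Fin (n + 1) →₀ ℕ) :
    (Finsupp.single none k + β.mapDomain some : Option (Fin (n + 1)) →₀ ℕ) none = k := by
  rw [Finsupp.add_apply, Finsupp.single_eq_same, Finsupp.mapDomain_of_notMem_range, add_zero]
  simp

theorem mono_some {n : ℕ} (k : ℕ) (β : Fin (n + 1) →₀ ℕ) (j : Fin (n + 1)) :
    (Finsupp.single none k + β.mapDomain some : Option (Fin (n + 1)) →₀ ℕ) (some j) = β j := by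
  rw [Finsupp.add_apply, Finsupp.mapDomain_apply (Option.some_injective _),
    Finsupp.single_eq_of_ne (by simp), zero_add]

theorem wform_map {R S : Type} [CommRing R] [CommRing S] (φ : R →+* S) {n m e : ℕ}
    (a : MonW n m e → R) : map φ (wform a) = wform fun i => φ (a i) := by
  unfold wform
  rw [map_add, map_sum, map_pow, map_X]
  congr 1
  refine Finset.sum_congr rfl fun i _ => ?_
  rw [mono_eq, mono_eq, map_mul, map_C, map_monomial, map_one]

theorem wform_whom {R : Type} [CommRing R] {n m e : ℕ} (a : MonW n m e → R) :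
    (wform a).IsWeightedHomogeneous (wt e) (m * e) := by
  unfold wform
  refine IsWeightedHomogeneous.add ?_ (IsWeightedHomogeneous.sum _ _ _ fun i _ => ?_)
  · rw [X_pow_eq_monomial]
    refine isWeightedHomogeneous_monomial _ _ _ ?_
    rw [weight_eq]
    simp
  · rw [mono_eq, C_mul_monomial]
    refine isWeightedHomogeneous_monomial _ _ _ ?_
    rw [weight_eq, mono_none]
    simp only [mono_some]
    have h1 := (Finset.mem_finsuppAntidiag.1 i.2.2).1
    rw [h1, ← add_mul]
    have h2 := i.1.2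
    congr 1
    omega

theorem wform_coeff {R : Type} [CommRing R] {n m e : ℕ} (a : MonW n m e → R) :
    coeff (Finsupp.single none m) (wform a) = 1 := by
  unfold wform
  rw [coeff_add, coeff_sum, X_pow_eq_monomial, coeff_monomial, if_pos rfl, Finset.sum_eq_zero,
    add_zero]
  intro i _
  rw [mono_eq, C_mul_monomial, coeff_monomial, if_neg]
  intro h
  have h1 := DFunLike.congr_fun h none
  rw [mono_none, Finsupp.single_eq_same] at h1
  have h2 := i.1.2
  omega

theorem degIdealW_map {R S : Type} [CommRing R] [CommRing S] (φ : R →+* S) {n : ℕ}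
    (s : Fin (n + 1)) (P : MvPolynomial (Option (Fin (n + 1))) R) :
    (degIdealW s P).map (map φ : MvPolynomial (Option {j // j ≠ s}) R →+*
      MvPolynomial (Option {j // j ≠ s}) S) ≤ degIdealW s (map φ P) := by
  unfold degIdealW
  rw [Ideal.map_span, Ideal.span_le]
  rintro _ ⟨f, (rfl | rfl | ⟨j, rfl⟩), rfl⟩
  · rw [map_dehW]
    exact Ideal.subset_span (Or.inl rfl)
  · rw [RingHom.map_det, RingHom.mapMatrix_apply]
    have h1 : (hess (dehW s P)).map (map φ) = hess (dehW s (map φ P)) := by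
      rw [← map_dehW]
      ext1 i j
      simp only [Matrix.map_apply, hess, Matrix.of_apply]
      rw [pderiv_map, pderiv_map]
    rw [h1]
    exact Ideal.subset_span (Or.inr (Or.inl rfl))
  · simp only
    rw [← pderiv_map, map_dehW]
    exact Ideal.subset_span (Or.inr (Or.inr ⟨j, rfl⟩))

theorem good_of_uniW {n m e : ℕ} (a : MonW n m e → ℤ) (p : ℕ)
    (h : ∀ s : Fin (n + 1), ∃ Φ Ψ : MvPolynomial (MonW n m e) ℤ,
      C Φ ∈ degIdealW s (gwform n m e) ∧ C Ψ ∈ degIdealW s (gwform n m e) ∧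
      ¬ ((p : ℤ) ∣ eval a Φ ∧ (p : ℤ) ∣ eval a Ψ)) : GoodAtW (wform a) p := by
  intro s Q hQ hQC hG
  by_contra hcon
  push Not at hcon
  obtain ⟨hder, hdet⟩ := hcon
  obtain ⟨Φ, Ψ, hΦ, hΨ, hn⟩ := h s
  have hle : degIdealW s (wform a) ≤ Q := by
    unfold degIdealW
    rw [Ideal.span_le]
    rintro f (rfl | rfl | ⟨j, rfl⟩)
    · exact hG
    · exact hdet
    · exact hder j
  have hg : map (eval a) (gwform n m e) = wform a := by
    unfold gwform
    rw [wform_map]
    congr 1
    funext i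
    exact eval_X _
  have key : ∀ Θ : MvPolynomial (MonW n m e) ℤ, C Θ ∈ degIdealW s (gwform n m e) →
      (p : ℤ) ∣ eval a Θ := by
    intro Θ hΘ
    rw [← hQC]
    apply hle
    have h1 := degIdealW_map (eval a) s (gwform n m e) (Ideal.mem_map_of_mem _ hΘ)
    rw [map_C, hg] at h1
    exact h1
  exact hn ⟨key Φ hΦ, key Ψ hΨ⟩

/-- **DENSW** -/
theorem densw (ek : S_EK) (uni : S_UNIW) (sm : S_SMW) (smq : S_SMQW) : S_DENSW := by
  classical
  intro n m e hn hm he hme
  set M := Fintype.card (MonW n m e) with hM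
  choose Φ Ψ hcop hΦ hΨ using uni n m e hm he
  choose Cs hCs using fun s => ek (MonW n m e) (Φ s) (Ψ s) (hcop s)
  set p₀ : ℕ := 2 ^ (M + 1) * (∑ s, Cs s) + (∑ s, Cs s) + 2 with hp₀
  have hCp : ∀ s, Cs s ≤ p₀ := by
    intro s
    have h1 : Cs s ≤ ∑ s, Cs s := Finset.single_le_sum (fun _ _ => Nat.zero_le _)
      (Finset.mem_univ s)
    omega
  set T : Finset ℕ := (Finset.range (p₀ + 1)).filter Nat.Prime with hT
  set P : ℕ := ∏ p ∈ T, p with hP
  have hP0 : 0 < P := Finset.prod_pos fun p hp => (Finset.mem_filter.1 hp).2.pos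
  have hTP : ∀ p, p.Prime → p ≤ p₀ → p ∣ P := by
    intro p hp hpp
    refine Finset.dvd_prod_of_mem _ ?_
    rw [hT, Finset.mem_filter, Finset.mem_range]
    exact ⟨by omega, hp⟩
  have hPT : ∀ p, p.Prime → p ∣ P → p ≤ p₀ := by
    intro p hp hpP
    obtain ⟨q, hq, hpq⟩ := (Prime.dvd_finsetProd_iff hp.prime _).1 hpP
    have h1 := Finset.mem_filter.1 hq
    have h2 := (Nat.prime_dvd_prime_iff_eq hp h1.2).1 hpq
    rw [h2]
    have h3 := Finset.mem_range.1 h1.1
    omega
  have hr : ∀ p : ℕ, ∃ r : MonW n m e → ℤ, p.Prime → ∀ a : MonW n m e → ℤ,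
      (∀ m', (p : ℤ) ∣ a m' - r m') → ∀ (s : Fin (n + 1)) (Q : Ideal (MvPolynomial (Option {j // j ≠ s}) ℤ)),
      Q.IsPrime → (∀ z : ℤ, C z ∈ Q ↔ (p : ℤ) ∣ z) → dehW s (wform a) ∈ Q →
      ∃ j, pderiv j (dehW s (wform a)) ∉ Q := by
    intro p
    by_cases hp : p.Prime
    · obtain ⟨r, hr⟩ := sm n m e p hn hm he hme hp
      exact ⟨r, fun _ => hr⟩
    · exact ⟨0, fun h => absurd h hp⟩
  choose r hr using hr
  obtain ⟨r₀, hr₀⟩ := exists_crt T (fun p hp => (Finset.mem_filter.1 hp).2) r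
  have hbad : ∀ s, ∃ H₀ : ℕ, ∀ H : ℕ, H₀ ≤ H →
        p₀ * P ^ M * Set.ncard {a : MonW n m e → ℤ | a ∈ box (MonW n m e) H ∧
          (∀ i, (P : ℤ) ∣ a i - r₀ i) ∧
          ∃ p : ℕ, p.Prime ∧ p₀ < p ∧ (p : ℤ) ∣ eval a (Φ s) ∧ (p : ℤ) ∣ eval a (Ψ s)} ≤
        Cs s * (2 * H + 1) ^ M := fun s => hCs s p₀ P (hCp s) hP0 hPT r₀
  choose H₀ hH₀ using hbad
  refine ⟨2 ^ (M + 1) * P ^ M, by positivity, (∑ s, H₀ s) + P, fun H hH => ?_⟩
  have hHs : ∀ s, H₀ s ≤ H := by
    intro s
    have h1 : H₀ s ≤ ∑ s, H₀ s := Finset.single_le_sum (fun _ _ => Nat.zero_le _)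
      (Finset.mem_univ s)
    omega
  set cls : Finset (MonW n m e → ℤ) :=
    (box (MonW n m e) H).filter fun a => ∀ i, (P : ℤ) ∣ a i - r₀ i with hcls
  set bad : Fin (n + 1) → Finset (MonW n m e → ℤ) := fun s => cls.filter fun a =>
    ∃ p : ℕ, p.Prime ∧ p₀ < p ∧ (p : ℤ) ∣ eval a (Φ s) ∧ (p : ℤ) ∣ eval a (Ψ s) with hbad
  have hcount := count_box H P hP0 (by omega) r₀
  rw [← hcls, ← hM] at hcount
  have hbadc : ∀ s, p₀ * P ^ M * (bad s).card ≤ Cs s * (2 * H + 1) ^ M := by
    intro s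
    have h1 := hH₀ s H (hHs s)
    have h2 : {a : MonW n m e → ℤ | a ∈ box (MonW n m e) H ∧
          (∀ i, (P : ℤ) ∣ a i - r₀ i) ∧
          ∃ p : ℕ, p.Prime ∧ p₀ < p ∧ (p : ℤ) ∣ eval a (Φ s) ∧ (p : ℤ) ∣ eval a (Ψ s)} =
        ((bad s : Finset (MonW n m e → ℤ)) : Set (MonW n m e → ℤ)) := by
      ext a
      simp only [hbad, hcls, Finset.coe_filter, Finset.mem_filter, Set.mem_ofPred_eq, and_assoc]
    rw [h2, Set.ncard_coe_finset] at h1
    exact h1
  have hsub : cls ⊆ (Finset.univ.biUnion bad) ∪ (cls.filter fun a => a ∈ goodSetW n m e H) := by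
    intro a ha
    rw [Finset.mem_union, Finset.mem_filter, Finset.mem_biUnion]
    by_cases hb : ∃ s, a ∈ bad s
    · obtain ⟨s, hs⟩ := hb
      exact Or.inl ⟨s, Finset.mem_univ _, hs⟩
    · right
      refine ⟨ha, ?_⟩
      push Not at hb
      rw [hcls, Finset.mem_filter] at ha
      have hsmall : ∀ p : ℕ, p.Prime → p ≤ p₀ → ∀ (s : Fin (n + 1))
          (Q : Ideal (MvPolynomial (Option {j // j ≠ s}) ℤ)),
          Q.IsPrime → (∀ z : ℤ, C z ∈ Q ↔ (p : ℤ) ∣ z) → dehW s (wform a) ∈ Q →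
          ∃ j, pderiv j (dehW s (wform a)) ∉ Q := by
        intro p hp hpp
        refine hr p hp a fun m' => ?_
        have h1 : (p : ℤ) ∣ (P : ℤ) := by exact_mod_cast hTP p hp hpp
        have h2 := h1.trans (ha.2 m')
        have h3 := hr₀ p (by
          rw [hT, Finset.mem_filter, Finset.mem_range]
          exact ⟨by omega, hp⟩) m'
        have h4 := dvd_add h2 h3
        rwa [sub_add_sub_cancel] at h4
      refine ⟨ha.1, ?_, ?_⟩
      · exact smq n m e 2 (by omega) he Nat.prime_two (wform a) (wform_whom a) (wform_coeff a)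
          (hsmall 2 Nat.prime_two (by omega))
      · intro p hp
        by_cases hpp : p ≤ p₀
        · intro s Q hQ hQC hG
          exact Or.inl (hsmall p hp hpp s Q hQ hQC hG)
        · refine good_of_uniW a p fun s => ⟨Φ s, Ψ s, hΦ s, hΨ s, ?_⟩
          rintro ⟨h1, h2⟩
          apply hb s
          rw [hbad]
          simp only
          rw [Finset.mem_filter]
          refine ⟨?_, p, hp, by omega, h1, h2⟩
          rw [hcls, Finset.mem_filter]
          exact ha
  have hfin : (goodSetW n m e H).Finite := (Finset.finite_toSet (box (MonW n m e) H)).subset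
    fun a ha => ha.1
  have hle : (cls.filter fun a => a ∈ goodSetW n m e H).card ≤ (goodSetW n m e H).ncard := by
    rw [← Set.ncard_coe_finset]
    refine Set.ncard_le_ncard ?_ hfin
    intro a ha
    exact (Finset.mem_filter.1 ha).2
  have hcard : cls.card ≤ (∑ s, (bad s).card) + (goodSetW n m e H).ncard := by
    refine (Finset.card_le_card hsub).trans ((Finset.card_union_le _ _).trans ?_)
    exact Nat.add_le_add Finset.card_biUnion_le hle
  refine dens_arith M _ (∑ s, Cs s) (∑ s, (bad s).card) _ P p₀ cls.card hcount ?_ (by omega)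
    (by omega) hP0 hcard
  rw [Finset.mul_sum, Finset.sum_mul]
  exact Finset.sum_le_sum fun s _ => hbadc s

end Pool.Agent.Helper21K9.WO
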