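import Pool.Agent.Helper21K9.WO.Latt
import Pool.Agent.R187.WC.Fin

/-! The global module and the model of a smooth weighted hypersurface with nondegenerate quadratic
singularities in the fibres. -/

set_option autoImplicit false
set_option linter.unusedSectionVars false
set_option linter.unusedVariables false

open AlgebraicGeometry CategoryTheory CategoryTheory.Limits MvPolynomial NumberField
open scoped Pointwise

namespace Pool.Agent.Helper21K9.WO

open Pool.Agent.H918R2.Quad Pool.Agent.TH214.RM Pool.Agent.W418 Pool.Agent.H945R2.E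
  Pool.Agent.R187.WC
open Pool.Agent.Helper21K9.OD (hess S_REP S_LG S_REG)

section

variable {O K F : Type} [CommRing O] [IsDedekindDomain O] [Field K] [Algebra O K]
  [IsFractionRing O K] [Field F] [Algebra K F] [Algebra O F] [IsScalarTower O K F]

/-- Over each nonzero prime the weighted hypersurface has, in suitable coordinates, an equation
which is regular or whose fibre has only nondegenerate quadratic singularities. -/
def LocNiceW (O : Type) {K : Type} [CommRing O] [Field K] [Algebra O K] {n : ℕ} (e m : ℕ)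
    (P : MvPolynomial (Option (Fin (n + 1))) K) : Prop :=
  ∀ 𝔭 : Ideal O, 𝔭.IsPrime → 𝔭 ≠ ⊥ →
    ∃ (H : MvPolynomial (Option (Fin (n + 1))) O) (l a : K)
      (T T' : Matrix (Fin (n + 1)) (Fin (n + 1)) K) (B : MvPolynomial (Fin (n + 1)) K),
      a ≠ 0 ∧ T * T' = 1 ∧ B.IsHomogeneous e ∧
      map (algebraMap O K) H = C l * aeval (subW T a B) P ∧
      H.IsWeightedHomogeneous (wt e) (m * e) ∧ coeff (Finsupp.single none m) H ∉ 𝔭 ∧
      (CritW 𝔭 H ∨ (OdpW 𝔭 H ∧ SmoothW (map (algebraMap O K) H)))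

theorem exists_multW {n : ℕ} (H : MvPolynomial (Option (Fin (n + 1))) O)
    (hsm : SmoothW (map (algebraMap O K) H)) (i : Fin (n + 1)) : ∃ c : O, c ≠ 0 ∧ ∃ k : ℕ,
      C c * X (some i) ^ k ∈ Ideal.span (Set.range fun j => pderiv j H) := by
  have hOK : Function.Injective (algebraMap O K) := IsFractionRing.injective O K
  have hspan : Ideal.span (Set.range fun j => pderiv j (map (algebraMap O K) H)) =
      Ideal.span (map (algebraMap O K) '' (Set.range fun j => pderiv j H)) := by
    congr 1
    rw [← Set.range_comp]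
    congr 1
    funext j
    simp only [Function.comp]
    rw [pderiv_map]
  obtain ⟨k, hk⟩ := hsm i
  rw [hspan] at hk
  obtain ⟨c, hc, y, hy, hyc⟩ := clear_span (R := K) (nonZeroDivisors O) _ _ hk
  refine ⟨c, nonZeroDivisors.ne_zero hc, k, ?_⟩
  have h1 : y = C c * X (some i) ^ k := by
    apply map_injective _ hOK
    rw [hyc, map_mul, map_C, map_pow, map_X]
  rwa [← h1]

theorem exists_cW {n e N : ℕ} (H : MvPolynomial (Option (Fin (n + 1))) O)
    (hHd : H.IsWeightedHomogeneous (wt e) N) (hsm : SmoothW (map (algebraMap O K) H)) :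
    ∃ c : O, c ≠ 0 ∧ ∀ s, C c ∈ Ideal.span (insert (dehW s H)
      (Set.range fun j => pderiv j (dehW s H))) := by
  classical
  choose c hc k hk using exists_multW (K := K) H hsm
  refine ⟨∏ i, c i, Finset.prod_ne_zero_iff.2 fun i _ => hc i, fun s => ?_⟩
  have h1 : C (c s) ∈ Ideal.span (insert (dehW s H)
      (Set.range fun j => pderiv j (dehW s H))) := by
    set J := Ideal.span (insert (dehW s H) (Set.range fun j => pderiv j (dehW s H))) with hJ
    have hall := all_pderiv_memW e H N hHd s J (Ideal.subset_span (Set.mem_insert _ _))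
      (fun j => Ideal.subset_span (Set.mem_insert_of_mem _ ⟨j, rfl⟩))
    have h2 : Ideal.span (Set.range fun j => pderiv j H) ≤ J.comap
        ((aeval (tauW s) : MvPolynomial (Option (Fin (n + 1))) O →ₐ[O]
          MvPolynomial (Option {j // j ≠ s}) O) : _ →+* _) := by
      rw [Ideal.span_le]
      rintro _ ⟨j, rfl⟩
      exact hall j
    have h3 : (aeval (tauW s) : MvPolynomial (Option (Fin (n + 1))) O →ₐ[O]
        MvPolynomial (Option {j // j ≠ s}) O)
        (C (c s) * X (some s) ^ k s) ∈ J := h2 (hk s)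
    have h4 : (tauW s (some s) : MvPolynomial (Option {i : Fin (n + 1) // i ≠ s}) O) = 1 :=
      tauW_self s
    rw [map_mul, map_pow, aeval_X, h4, one_pow, mul_one, aeval_C] at h3
    exact h3
  obtain ⟨d, hd⟩ := Finset.dvd_prod_of_mem c (Finset.mem_univ s)
  rw [hd, C_mul]
  exact Ideal.mul_mem_right _ _ h1

include K in
theorem goodModule_of_locNiceW (rep : S_REP) (lg : S_LG) (reg : S_REG) {n e m : ℕ} (he : 1 ≤ e)
    (hm : 1 ≤ m) (P : MvPolynomial (Option (Fin (n + 1))) K)
    (hPd : P.IsWeightedHomogeneous (wt e) (m * e)) (hc : coeff (Finsupp.single none m) P ≠ 0)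
    (hsm : SmoothW P) (hloc : LocNiceW O e m P)
    (x : Option (Fin (n + 1)) → F) (hx0 : x (some 0) = 1) (hrel : aeval x P = 0)
    (hgen : IntermediateField.adjoin K (Set.range x) = ⊤)
    (b : Fin n → F) (htb : IsTranscendenceBasis K b) : GoodModule O (zz e x) := by
  classical
  have hOK : Function.Injective (algebraMap O K) := IsFractionRing.injective O K
  obtain ⟨s₀, hs₀, P₀, hP₀⟩ := clear_poly (R := K) (nonZeroDivisors O) P
  have hs₀0 : s₀ ≠ 0 := nonZeroDivisors.ne_zero hs₀
  have hs₀K : algebraMap O K s₀ ≠ 0 := fun h => hs₀0 (hOK (by rw [h, map_zero]))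
  have hP₀d : P₀.IsWeightedHomogeneous (wt e) (m * e) := by
    intro s hs
    apply hPd
    intro h
    apply hs
    apply hOK
    rw [map_zero, ← coeff_map, hP₀, coeff_C_mul, h, mul_zero]
  have hc₀ : coeff (Finsupp.single none m) P₀ ≠ 0 := by
    intro h
    have h1 := congrArg (coeff (Finsupp.single none m)) hP₀
    rw [coeff_map, h, map_zero, coeff_C_mul] at h1
    exact (mul_ne_zero hs₀K hc) h1.symm
  have hrelP₀ : aeval x P₀ = 0 := by
    rw [← aeval_map_algebraMap K x P₀, hP₀, map_mul, hrel, mul_zero]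
  have hspan : Ideal.span (Set.range fun j => pderiv j P) =
      Ideal.span (map (algebraMap O K) '' (Set.range fun j => pderiv j P₀)) := by
    apply le_antisymm
    · rw [Ideal.span_le]
      rintro _ ⟨j, rfl⟩
      change pderiv j P ∈ Ideal.span _
      have h1 : pderiv j P = C (algebraMap O K s₀)⁻¹ * map (algebraMap O K) (pderiv j P₀) := by
        rw [← pderiv_map, hP₀, pderiv_C_mul, ← mul_assoc, ← C_mul, inv_mul_cancel₀ hs₀K, C_1,
          one_mul]
      rw [h1]
      exact Ideal.mul_mem_left _ _ (Ideal.subset_span ⟨_, ⟨j, rfl⟩, rfl⟩)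
    · rw [Ideal.span_le]
      rintro _ ⟨_, ⟨j, rfl⟩, rfl⟩
      have h1 : map (algebraMap O K) (pderiv j P₀) = C (algebraMap O K s₀) * pderiv j P := by
        rw [← pderiv_map, hP₀, pderiv_C_mul]
      rw [SetLike.mem_coe]
      change map (algebraMap O K) (pderiv j P₀) ∈ _
      rw [h1]
      exact Ideal.mul_mem_left _ _ (Ideal.subset_span ⟨j, rfl⟩)
  have hex : ∀ i : Fin (n + 1), ∃ c : O, c ≠ 0 ∧ ∃ k : ℕ,
      C c * X (some i) ^ k ∈ Ideal.span (Set.range fun j => pderiv j P₀) := by
    intro i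
    obtain ⟨k, hk⟩ := hsm i
    rw [hspan] at hk
    obtain ⟨c, hc, y, hy, hyc⟩ := clear_span (R := K) (nonZeroDivisors O) _ _ hk
    refine ⟨c, nonZeroDivisors.ne_zero hc, k, ?_⟩
    have h1 : y = C c * X (some i) ^ k := by
      apply map_injective _ hOK
      rw [hyc, map_mul, map_C, map_pow, map_X]
    rwa [← h1]
  choose c hcc k hk using hex
  set c₀ := coeff (Finsupp.single none m) P₀ with hc₀def
  have hc0 : c₀ * ∏ i, c i ≠ 0 := by
    refine mul_ne_zero hc₀ ?_
    rw [Finset.prod_ne_zero_iff]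
    exact fun i _ => hcc i
  have hDspan : Ideal.span {c₀ * ∏ i, c i} ≠ ⊥ := by
    rw [Ne, Ideal.span_singleton_eq_bot]
    exact hc0
  let S : Finset (Ideal O) :=
    (UniqueFactorizationMonoid.normalizedFactors (Ideal.span {c₀ * ∏ i, c i})).toFinset
  have hS : ∀ 𝔭, 𝔭 ∈ S ↔ 𝔭.IsPrime ∧ c₀ * ∏ i, c i ∈ 𝔭 := by
    intro 𝔭
    rw [Multiset.mem_toFinset, Ideal.mem_normalizedFactors_iff hDspan,
      Ideal.span_singleton_le_iff_mem]
  have hS0 : ∀ 𝔭 ∈ S, 𝔭 ≠ ⊥ := by
    intro 𝔭 h𝔭 h
    have h1 := ((hS 𝔭).1 h𝔭).2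
    rw [h] at h1
    exact hc0 h1
  refine goodModule_of_locι (K := K) (zz e x) (.inl fun _ => 0) ?_ S (fun 𝔭 h𝔭 =>
    ⟨Ideal.IsPrime.isMaximal ((hS 𝔭).1 h𝔭).1 (hS0 𝔭 h𝔭), hS0 𝔭 h𝔭⟩) ?_ ?_
  · simp [zz, hx0]
  · intro 𝔭 h𝔭
    have hpp := ((hS 𝔭).1 h𝔭).1
    have h0 := hS0 𝔭 h𝔭
    obtain ⟨H, l, a, T, T', B, ha, hTT, hB, hH, hHd, hHc, hcrit⟩ := hloc 𝔭 hpp h0
    let y : Fin (n + 1) → F := fun i => ∑ j, algebraMap K F (T' i j) * x (some j)
    let v : Option (Fin (n + 1)) → F := fun o => o.elim
      (algebraMap K F a⁻¹ * (x none - aeval y B)) y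
    have hvs : ∀ i, v (some i) = y i := fun i => rfl
    have hvn : v none = algebraMap K F a⁻¹ * (x none - aeval y B) := rfl
    have hxx' : ∀ i, x (some i) = ∑ j, algebraMap K F (T i j) * v (some j) := by
      intro i
      have h1 : ∑ j, algebraMap K F (T i j) * v (some j) =
          ∑ m, (∑ j, algebraMap K F (T i j) * algebraMap K F (T' j m)) * x (some m) := by
        simp only [hvs, y, Finset.mul_sum, Finset.sum_mul]
        rw [Finset.sum_comm]
        refine Finset.sum_congr rfl fun m _ => Finset.sum_congr rfl fun j _ => ?_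
        ring
      have h2 : ∀ m, ∑ j, algebraMap K F (T i j) * algebraMap K F (T' j m) =
          if i = m then 1 else 0 := by
        intro m
        have h3 : (T * T') i m = (1 : Matrix (Fin (n + 1)) (Fin (n + 1)) K) i m := by rw [hTT]
        rw [Matrix.mul_apply, Matrix.one_apply] at h3
        have h4 := congrArg (algebraMap K F) h3
        rw [map_sum] at h4
        simp only [map_mul] at h4
        rw [h4]
        split_ifs <;> simp
      rw [h1]
      simp only [h2, ite_mul, one_mul, zero_mul, Finset.sum_ite_eq, Finset.mem_univ, if_true]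
    have hxn : x none = algebraMap K F a * v none + aeval (fun j => v (some j)) B := by
      rw [hvn, ← mul_assoc, ← map_mul, mul_inv_cancel₀ ha, map_one, one_mul]
      change x none = x none - aeval y B + aeval y B
      ring
    have hrelH : aeval v H = 0 := by
      rw [← aeval_map_algebraMap K v H, hH, map_mul]
      have h1 : aeval v (aeval (subW T a B) P) = aeval x P := by
        rw [← AlgHom.comp_apply]
        congr 1
        apply MvPolynomial.algHom_ext
        intro o
        rw [AlgHom.comp_apply, aeval_X, aeval_X]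
        rcases o with _ | i
        · rw [hxn]
          simp only [subW, map_add, map_mul, aeval_X, aeval_C, aeval_rename]
          rfl
        · rw [hxx' i]
          simp only [subW, map_sum, map_mul, aeval_X, aeval_C]
      rw [h1, hrel, mul_zero]
    have hw1 : x none ∈ Submodule.span K (Set.range (zz e v)) := by
      rw [hxn]
      refine Submodule.add_mem _ ?_ (aeval_mem_span v B hB)
      rw [← Algebra.smul_def]
      exact Submodule.smul_mem _ _ (Submodule.subset_span ⟨.inr (), rfl⟩)
    have hw2 : v none ∈ Submodule.span K (Set.range (zz e x)) := by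
      rw [hvn, ← Algebra.smul_def]
      refine Submodule.smul_mem _ _ (Submodule.sub_mem _ (Submodule.subset_span ⟨.inr (), rfl⟩) ?_)
      have h1 : aeval y B = aeval (fun j => x (some j))
          (aeval (fun i => ∑ j, C (T' i j) * X j : Fin (n + 1) → MvPolynomial (Fin (n + 1)) K) B) := by
        rw [← AlgHom.comp_apply]
        congr 1
        apply MvPolynomial.algHom_ext
        intro i
        rw [AlgHom.comp_apply, aeval_X, aeval_X]
        simp only [y, map_sum, map_mul, aeval_X, aeval_C]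
      rw [h1]
      refine aeval_mem_span x _ ?_
      have h2 : ((aeval (fun i => ∑ j, C (T' i j) * X j :
          Fin (n + 1) → MvPolynomial (Fin (n + 1)) K)) B).IsHomogeneous (1 * e) := by
        refine hB.aeval _ fun i => ?_
        refine IsHomogeneous.sum _ _ _ fun j _ => ?_
        have h2 := (isHomogeneous_C (Fin (n + 1)) (T' i j)).mul (isHomogeneous_X K j)
        rwa [zero_add] at h2
      rwa [one_mul] at h2
    rcases hcrit with hcrit | ⟨hodp, hsmH⟩
    · exact locMod_of_critW (K := K) 𝔭 h0 he H hHd hHc hcrit x hx0 hgen b htb v (fun i j => T i j)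
        (fun i j => T' i j) hxx' (fun i => rfl) hw1 hw2 hrelH
    · obtain ⟨c', hc', hcv⟩ := exists_cW (K := K) H hHd hsmH
      exact locMod_of_odpW (K := K) rep lg reg 𝔭 h0 he hm H hHd hHc hodp c' hc' hcv x hx0 hgen b
        htb v (fun i j => T i j) (fun i j => T' i j) hxx' (fun i => rfl) hw1 hw2 hrelH
  · intro 𝔭 hpp h𝔭 D hD M hM hM2
    have hprod : c₀ * ∏ i, c i ∉ 𝔭 := fun h => h𝔭 ((hS 𝔭).2 ⟨hpp, h⟩)
    have hc0p : c₀ ∉ 𝔭 := fun h => hprod (𝔭.mul_mem_right _ h)
    have hcp : ∀ i, c i ∉ 𝔭 := fun i h => hprod (𝔭.mul_mem_left _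
      (Ideal.mem_of_dvd 𝔭 (Finset.dvd_prod_of_mem c (Finset.mem_univ i)) h))
    refine regAt_of_critW (K := K) 𝔭 he P₀ hP₀d hc0p
      (crit_of_smoothW e 𝔭 P₀ _ hP₀d fun i => ⟨c i, hcp i, k i, hk i⟩) x hx0 hgen b htb x
      (fun i j => if i = j then 1 else 0) ?_ (IntermediateField.subset_adjoin K _ ⟨none, rfl⟩)
      hrelP₀ D hD M hM hM2
    intro i
    simp only [apply_ite (algebraMap K F), map_one, map_zero, ite_mul, one_mul, zero_mul,
      Finset.sum_ite_eq, Finset.mem_univ, if_true]

end

theorem model_niceW (rep : S_REP) (lg : S_LG) (reg : S_REG) {O K : Type}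
    [CommRing O] [IsDedekindDomain O] [Module.Finite ℤ O] [Field K] [CharZero K] [Algebra O K]
    [IsFractionRing O K] {n : ℕ} (hn : 1 ≤ n) (e m : ℕ) (he : 1 ≤ e) (hm : 1 ≤ m)
    (P : MvPolynomial (Option (Fin (n + 1))) K)
    (hPd : P.IsWeightedHomogeneous (wt e) (m * e)) (hc : coeff (Finsupp.single none m) P ≠ 0)
    (hsm : SmoothW P) (hloc : LocNiceW O e m P) {B : Type} [CommRing B] [Algebra K B]
    (j : B →ₐ[K] (MvPolynomial (Option (Fin (n + 1))) K ⧸ Ideal.span {P}))
    (hj : Function.Injective j) (ℬ : ℕ → Submodule K B) [GradedAlgebra ℬ]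
    (hℬ : ∀ d, (ℬ d).map j.toLinearMap =
      (weightedHomogeneousSubmodule K (wt (ι := Fin (n + 1)) e) (d * e)).map
        (Ideal.Quotient.mkₐ K (Ideal.span {P})).toLinearMap)
    (Y : Scheme.{0}) (hY : Nonempty (Y ≅ Proj ℬ)) : HasRegularModel Y := by
  have hirr := irreducible_of_smoothW hn e m he hm P hPd hc hsm
  obtain ⟨F, _, _, x, b, hx0, hrel, hgen, htb⟩ := exists_ffW e m he hm P hPd hc hirr
  let _ : Algebra O F := ((algebraMap K F).comp (algebraMap O K)).toAlgebra
  have hst : IsScalarTower O K F := IsScalarTower.of_algebraMap_eq fun _ => rfl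
  have hM : GoodModule O (zz e x) :=
    goodModule_of_locNiceW (K := K) rep lg reg he hm P hPd hc hsm hloc x hx0 hrel hgen b htb
  obtain ⟨ε, hε, hεgen, hε1⟩ := exists_epsW e he x hx0 hgen b htb P hirr.prime _ hPd hrel j hj ℬ hℬ
  exact hasRegularModel_of_goodModule (O := O) ℬ ε hε hεgen (zz e x) hε1 hM Y hY

end Pool.Agent.Helper21K9.WO
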