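import Pool.Agent.Helper21K9.OD.Core
import Pool.Agent.R187.WC.Loc

/-! From the homogeneous generators of a weighted hypersurface to the affine chart. -/

set_option autoImplicit false
set_option linter.unusedSectionVars false
set_option linter.unusedVariables false

open MvPolynomial
open scoped Pointwise

namespace Pool.Agent.Helper21K9.WO

open Pool.Agent.H918R2.Quad Pool.Agent.TH214.RM Pool.Agent.R187.WC
open Pool.Agent.Helper21K9.OD (hess S_REP S_LG S_REG core)

section

variable {F : Type} [Field F]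

/-- The generators of the ideal `(p ^ j, Ξ)` in degree `k`; `Z` is the set of the generators of
degree one. -/
def HHW (Z : Set F) (p : F) (Ξ : Set F) (k j : ℕ) : Set F :=
  {z | ∃ y ∈ Z ^ k, z = p ^ j * y} ∪ Ξ

/-- The generators of the lattice. -/
def GGW (Z : Set F) (p : F) (Ξ : Set F) (k D' : ℕ) : ℕ → Set F
  | 0 => Z ^ D'
  | m + 1 => GGW Z p Ξ k D' m * HHW Z p Ξ k (m + 1)

theorem splitW (𝒪 : Subring F) (Z : Set F) (p : F) (Ξ : Set F) (k D' : ℕ) :
    ∀ (m : ℕ) (f : F), (∀ h ∈ GGW Z p Ξ k D' m, h / f ∈ 𝒪) →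
    (∃ g ∈ GGW Z p Ξ k D' m, U 𝒪 (g / f)) →
    ∃ g₀ ∈ Z ^ D', (∀ h ∈ Z ^ D', h / g₀ ∈ 𝒪) ∧
      ∃ g : ℕ → F, (∀ j ∈ Finset.Icc 1 m, g j ∈ HHW Z p Ξ k j ∧
        ∀ h ∈ HHW Z p Ξ k j, h / g j ∈ 𝒪) ∧
        U 𝒪 (f / (g₀ * ∏ j ∈ Finset.Icc 1 m, g j)) := by
  intro m
  induction m with
  | zero =>
    rintro f hf ⟨g, hg, hU⟩
    refine ⟨g, hg, ?_, fun _ => 1, ?_, ?_⟩
    · intro h hh
      have h1 : g ≠ 0 := by rintro rfl; rw [zero_div] at hU; exact not_U_zero hU
      have h2 : f ≠ 0 := by rintro rfl; rw [div_zero] at hU; exact not_U_zero hU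
      have h3 : h / g = h / f * (g / f)⁻¹ := by field_simp
      rw [h3]
      exact 𝒪.mul_mem (hf h hh) hU.2.2
    · intro j hj
      simp at hj
    · simp only [Finset.Icc_eq_empty (show ¬ 1 ≤ 0 by omega), Finset.prod_empty, mul_one]
      have h3 : f / g = (g / f)⁻¹ := by rw [inv_div]
      rw [h3]
      exact hU.inv
  | succ m ih =>
    rintro f hf ⟨g, hg, hU⟩
    obtain ⟨a, ha, b, hb, hab⟩ := Set.mem_mul.1 hg
    have h1 : g ≠ 0 := by rintro rfl; rw [zero_div] at hU; exact not_U_zero hU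
    have h2 : f ≠ 0 := by rintro rfl; rw [div_zero] at hU; exact not_U_zero hU
    have ha0 : a ≠ 0 := by rintro rfl; rw [zero_mul] at hab; exact h1 hab.symm
    have hb0 : b ≠ 0 := by rintro rfl; rw [mul_zero] at hab; exact h1 hab.symm
    have key : ∀ h ∈ GGW Z p Ξ k D' (m + 1), h / g ∈ 𝒪 := by
      intro h hh
      have h3 : h / g = h / f * (g / f)⁻¹ := by field_simp
      rw [h3]
      exact 𝒪.mul_mem (hf h hh) hU.2.2
    obtain ⟨g₀, hg₀, hg₀2, g', hg', hU'⟩ := ih a (fun h hh => by
      have h3 := key (h * b) (Set.mul_mem_mul hh hb)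
      rw [← hab, mul_div_mul_right _ _ hb0] at h3
      exact h3) ⟨a, ha, by rw [div_self ha0]; exact U_one⟩
    refine ⟨g₀, hg₀, hg₀2, fun j => if j = m + 1 then b else g' j, ?_, ?_⟩
    · intro j hj
      by_cases hjm : j = m + 1
      · subst hjm
        simp only [if_true]
        refine ⟨hb, fun h hh => ?_⟩
        have h3 := key (a * h) (Set.mul_mem_mul ha hh)
        rw [← hab, mul_div_mul_left _ _ ha0] at h3
        exact h3
      · simp only [if_neg hjm]
        refine hg' j ?_
        rw [Finset.mem_Icc] at hj ⊢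
        omega
    · rw [Finset.prod_Icc_succ_top (by omega)]
      simp only [if_true]
      have h4 : ∏ j ∈ Finset.Icc 1 m, (if j = m + 1 then b else g' j) =
          ∏ j ∈ Finset.Icc 1 m, g' j := by
        refine Finset.prod_congr rfl fun j hj => ?_
        rw [if_neg]
        rw [Finset.mem_Icc] at hj
        omega
      rw [h4]
      have h5 : f / (g₀ * ((∏ j ∈ Finset.Icc 1 m, g' j) * b)) =
          (g / f)⁻¹ * (a / (g₀ * ∏ j ∈ Finset.Icc 1 m, g' j)) := by
        have h6 : g₀ * ∏ j ∈ Finset.Icc 1 m, g' j ≠ 0 := by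
          intro h
          rw [h, div_zero] at hU'
          exact not_U_zero hU'
        have h7 := left_ne_zero_of_mul h6
        have h8 := right_ne_zero_of_mul h6
        rw [← hab, inv_div]
        field_simp
      rw [h5]
      exact hU.inv.mul hU'

/-- The products of the partial derivatives with the coordinates which have weight `k e`. -/
def XiW {ι : Type} (e : ℕ) (v : Option ι → F) (ξ : Option ι → F) : Set F :=
  {z | ∃ a, z = ξ none * zz e v a} ∪ {z | ∃ i l, z = ξ (some i) * v (some l)}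

/-- The coordinates of the chart `s`. -/
noncomputable def tv {ι : Type} (e : ℕ) (v : Option ι → F) (s : ι) :
    Option {j : ι // j ≠ s} → F :=
  fun o => v (o.map Subtype.val) / v (some s) ^ wt e o

end

section

variable {R F ι : Type} [CommRing R] [IsDomain R] [IsDiscreteValuationRing R] [Field F]
  [Algebra R F] [Fintype ι] [DecidableEq ι]

omit [Fintype ι] [DecidableEq ι] in
theorem tv_eq (e : ℕ) (v : Option ι → F) (s : ι) :
    tv e v s = fun o : Option {j : ι // j ≠ s} =>
      (fun j => v j / v (some s) ^ wt e j) (o.map Subtype.val) := by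
  funext o
  rcases o with _ | o <;> rfl

theorem aeval_chart_valW (e : ℕ) (s : ι) (v : Option ι → F) (hs : v (some s) ≠ 0)
    (P : MvPolynomial (Option ι) R) (N : ℕ) (hP : P.IsWeightedHomogeneous (wt e) N) :
    aeval (tv e v s) (dehW s P) = aeval v P / v (some s) ^ N := by
  have h1 : (fun j => v j / v (some s) ^ wt e j) (some s) = 1 := by
    simp only [wt_some, pow_one]
    exact div_self hs
  rw [tv_eq, aeval_dehW s (fun j => v j / v (some s) ^ wt e j) h1 P]
  have h2 : (fun j => v j / v (some s) ^ wt e j) = fun j => v j * ((v (some s))⁻¹) ^ wt e j := by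
    funext j
    rw [div_eq_mul_inv, inv_pow]
  rw [h2, aeval_scaleW e v _ _ P hP, inv_pow, div_eq_mul_inv]

theorem tauW_val (e : ℕ) (s : ι) (v : Option ι → F) (hs : v (some s) ≠ 0) (j : Option ι) :
    aeval (tv e v s) (tauW (R := R) s j) = v j / v (some s) ^ wt e j := by
  rw [tv_eq]
  refine aeval_tauW s (fun j => v j / v (some s) ^ wt e j) ?_ j
  simp only [wt_some, pow_one]
  exact div_self hs

theorem zz_val (e : ℕ) (s : ι) (v : Option ι → F) (hs : v (some s) ≠ 0) (a : (Fin e → ι) ⊕ Unit) :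
    ∃ w : MvPolynomial (Option {j // j ≠ s}) R,
      zz e v a = v (some s) ^ e * aeval (tv e v s) w := by
  have hzt : ∀ j, v j = v (some s) ^ wt e j * aeval (tv e v s) (tauW (R := R) s j) := by
    intro j
    rw [tauW_val e s v hs]
    have := pow_ne_zero (wt e j) hs
    field_simp
  rcases a with φ | u
  · refine ⟨∏ k, tauW s (some (φ k)), ?_⟩
    rw [map_prod]
    change ∏ k, v (some (φ k)) = _
    have h1 : ∏ k, v (some (φ k)) =
        ∏ k, (v (some s) * aeval (tv e v s) (tauW (R := R) s (some (φ k)))) :=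
      Finset.prod_congr rfl fun k _ => by
        have := hzt (some (φ k))
        rwa [wt_some, pow_one] at this
    rw [h1, Finset.prod_mul_distrib, Finset.prod_const, Finset.card_univ, Fintype.card_fin]
  · exact ⟨tauW s none, hzt none⟩

theorem mono_valW (e : ℕ) (s : ι) (v : Option ι → F) (hs : v (some s) ≠ 0) (D : ℕ) (y : F)
    (hy : y ∈ Set.range (zz e v) ^ D) :
    ∃ w : MvPolynomial (Option {j // j ≠ s}) R,
      y = v (some s) ^ (e * D) * aeval (tv e v s) w := by
  obtain ⟨φ, rfl⟩ := (Pool.Agent.H945R2.D.GD1aux.mem_range_pow _ D y).1 hy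
  choose w hw using zz_val (R := R) e s v hs
  refine ⟨∏ i, w (φ i), ?_⟩
  rw [map_prod]
  have h1 : ∏ i, zz e v (φ i) = ∏ i, (v (some s) ^ e * aeval (tv e v s) (w (φ i))) :=
    Finset.prod_congr rfl fun i _ => hw (φ i)
  rw [h1, Finset.prod_mul_distrib, Finset.prod_const, Finset.card_univ, Fintype.card_fin, pow_mul]

theorem euler_chartW (e : ℕ) (s : ι) (P : MvPolynomial (Option ι) R) (N : ℕ)
    (hP : P.IsWeightedHomogeneous (wt e) N)
    (t : Option {j // j ≠ s} → F) (ht : aeval t (dehW s P) = 0) :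
    aeval t (dehW s (pderiv (some s) P)) =
      ∑ i : Option {j // j ≠ s},
        aeval t (-(C (wt e i : R) * X i) : MvPolynomial (Option {j // j ≠ s}) R) *
        aeval t (pderiv i (dehW s P)) := by
  have h1 := congrArg (aeval (tauW s) : MvPolynomial (Option ι) R →ₐ[R] MvPolynomial _ R)
    hP.sum_weight_X_mul_pderiv
  rw [map_sum, map_nsmul, Fintype.sum_option, Fintype.sum_eq_add_sum_subtype_ne _ s] at h1
  simp only [map_nsmul, map_mul, aeval_X] at h1
  have h2 : (tauW s (some s) : MvPolynomial (Option {i : ι // i ≠ s}) R) = 1 := tauW_self s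
  have h3 : (tauW s none : MvPolynomial (Option {i : ι // i ≠ s}) R) = X none := rfl
  have h4 : ∀ j : {j // j ≠ s}, (tauW s (some (j : ι)) : MvPolynomial (Option {i : ι // i ≠ s}) R) =
      X (some j) := by
    intro j
    simp [tauW, j.2]
  have h5 := congrArg (aeval t : MvPolynomial (Option {i : ι // i ≠ s}) R →ₐ[R] F) h1
  rw [map_add, map_add, map_sum, map_nsmul] at h5
  simp only [map_nsmul, map_mul, h2, h3, h4, aeval_X, one_mul, wt_none, wt_some,
    one_smul] at h5
  change e • (t none * aeval t (dehW s (pderiv none P))) + (aeval t (dehW s (pderiv (some s) P)) +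
    ∑ i : {j // j ≠ s}, t (some i) * aeval t (dehW s (pderiv (some (i : ι)) P))) =
      N • aeval t (dehW s P) at h5
  rw [ht, smul_zero] at h5
  rw [Fintype.sum_option]
  simp only [pderiv_dehW, Option.map_none, Option.map_some, map_neg, map_mul, aeval_X, wt_none,
    wt_some, Nat.cast_one, map_one, one_mul, neg_mul, Finset.sum_neg_distrib]
  rw [aeval_C, map_natCast]
  rw [nsmul_eq_mul] at h5
  linear_combination h5

theorem HHW_form (e : ℕ) (he : 1 ≤ e) (k : ℕ) (hk : 1 ≤ k) (s : ι) (v : Option ι → F)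
    (hs : v (some s) ≠ 0)
    (P : MvPolynomial (Option ι) R) (hP : P.IsWeightedHomogeneous (wt e) (k * e))
    (hrel : aeval v P = 0) (p : F) (j : ℕ) (h : F)
    (hh : h ∈ HHW (Set.range (zz e v)) p (XiW e v fun i => aeval v (pderiv i P)) k j) :
    ∃ (a : MvPolynomial (Option {j // j ≠ s}) R)
      (b : Option {j // j ≠ s} → MvPolynomial (Option {j // j ≠ s}) R),
      h / v (some s) ^ (e * k) = aeval (tv e v s) a * p ^ j +
        ∑ i, aeval (tv e v s) (b i) * aeval (tv e v s) (pderiv i (dehW s P)) := by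
  have hvs := hs
  have hke : 1 ≤ k * e := Nat.mul_pos hk he
  rcases hh with ⟨y, hy, rfl⟩ | (⟨a, rfl⟩ | ⟨i, l, rfl⟩)
  · obtain ⟨w, hw⟩ := mono_valW (R := R) e s v hs k y hy
    refine ⟨w, 0, ?_⟩
    simp only [Pi.zero_apply, map_zero, zero_mul, Finset.sum_const_zero, add_zero]
    rw [hw]
    have := pow_ne_zero (e * k) hs
    field_simp
  · obtain ⟨w, hw⟩ := zz_val (R := R) e s v hs a
    refine ⟨0, Pi.single none w, ?_⟩
    rw [map_zero, zero_mul, zero_add, Finset.sum_eq_single (none : Option {j // j ≠ s})]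
    · rw [Pi.single_eq_same, pderiv_dehW, Option.map_none,
        aeval_chart_valW e s v hs _ ((k - 1) * e) (hP.pderiv (by
          rw [wt_none]
          obtain ⟨k', rfl⟩ : ∃ k', k = k' + 1 := ⟨k - 1, by omega⟩
          simp only [Nat.add_sub_cancel]
          ring)), hw]
      have h1 : e * k = (k - 1) * e + e := by
        obtain ⟨k', rfl⟩ : ∃ k', k = k' + 1 := ⟨k - 1, by omega⟩
        simp only [Nat.add_sub_cancel]
        ring
      rw [h1, pow_add]
      have h2 := pow_ne_zero e hs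
      have h3 := pow_ne_zero ((k - 1) * e) hs
      field_simp
    · intro l _ hl
      rw [Pi.single_eq_of_ne hl, map_zero, zero_mul]
    · intro h
      exact absurd (Finset.mem_univ _) h
  · have hval : aeval v (pderiv (some i) P) * v (some l) / v (some s) ^ (e * k) =
        aeval (tv e v s) (tauW (R := R) s (some l)) *
          aeval (tv e v s) (dehW s (pderiv (some i) P)) := by
      rw [aeval_chart_valW e s v hs _ (k * e - 1) (hP.pderiv (by
          rw [wt_some]
          omega)), tauW_val e s v hs, wt_some, pow_one]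
      have h1 : e * k = (k * e - 1) + 1 := by
        rw [mul_comm]
        omega
      rw [h1, pow_succ]
      have h3 := pow_ne_zero (k * e - 1) hs
      field_simp
    simp only
    rw [hval]
    by_cases hi : i = s
    · subst hi
      refine ⟨0, fun i' => tauW i (some l) * (-(C (wt e i' : R) * X i')), ?_⟩
      rw [map_zero, zero_mul, zero_add, euler_chartW e i P (k * e) hP _ (by
        rw [aeval_chart_valW e i v hs P _ hP, hrel, zero_div]), Finset.mul_sum]
      refine Finset.sum_congr rfl fun i' _ => ?_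
      rw [map_mul, mul_assoc]
    · refine ⟨0, Pi.single (some ⟨i, hi⟩) (tauW s (some l)), ?_⟩
      rw [map_zero, zero_mul, zero_add,
        Finset.sum_eq_single (some (⟨i, hi⟩ : {j // j ≠ s}))]
      · rw [Pi.single_eq_same, pderiv_dehW, Option.map_some]
      · intro l _ hl
        rw [Pi.single_eq_of_ne hl, map_zero, zero_mul]
      · intro h
        exact absurd (Finset.mem_univ _) h

theorem GGW_form (e : ℕ) (he : 1 ≤ e) (k : ℕ) (hk : 1 ≤ k) (s : ι) (v : Option ι → F)
    (hs : v (some s) ≠ 0)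
    (P : MvPolynomial (Option ι) R) (hP : P.IsWeightedHomogeneous (wt e) (k * e))
    (hrel : aeval v P = 0) (p : F) (D' m : ℕ) :
    ∀ h ∈ GGW (Set.range (zz e v)) p (XiW e v fun i => aeval v (pderiv i P)) k D' m,
    ∃ (a : MvPolynomial (Option {j // j ≠ s}) R) (β : ℕ → F),
      h = (v (some s) ^ (e * D') * (v (some s) ^ (e * k)) ^ m) * aeval (tv e v s) a *
        ∏ j ∈ Finset.Icc 1 m, β j ∧
      ∀ j ∈ Finset.Icc 1 m, ∃ (a : MvPolynomial (Option {j // j ≠ s}) R)
        (b : Option {j // j ≠ s} → MvPolynomial (Option {j // j ≠ s}) R),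
        β j = aeval (tv e v s) a * p ^ j +
        ∑ i, aeval (tv e v s) (b i) * aeval (tv e v s) (pderiv i (dehW s P)) := by
  induction m with
  | zero =>
    intro h hh
    obtain ⟨w, hw⟩ := mono_valW (R := R) e s v hs D' h hh
    refine ⟨w, fun _ => 1, ?_, fun j hj => by simp at hj⟩
    rw [hw]
    simp
  | succ m ih =>
    intro h hh
    obtain ⟨a', ha', b', hb', rfl⟩ := Set.mem_mul.1 hh
    obtain ⟨a, β, hae, hβ⟩ := ih a' ha'
    obtain ⟨c, b, hcb⟩ := HHW_form e he k hk s v hs P hP hrel p (m + 1) b' hb'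
    refine ⟨a, fun j => if j = m + 1 then b' / v (some s) ^ (e * k) else β j, ?_, ?_⟩
    · rw [Finset.prod_Icc_succ_top (by omega)]
      simp only [if_true]
      have h4 : ∏ j ∈ Finset.Icc 1 m, (if j = m + 1 then b' / v (some s) ^ (e * k) else β j) =
          ∏ j ∈ Finset.Icc 1 m, β j := by
        refine Finset.prod_congr rfl fun j hj => ?_
        rw [if_neg]
        rw [Finset.mem_Icc] at hj
        omega
      rw [h4, hae]
      have := pow_ne_zero (e * k) hs
      rw [pow_succ]
      field_simp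
    · intro j hj
      by_cases hjm : j = m + 1
      · subst hjm
        simp only [if_true]
        exact ⟨c, b, hcb⟩
      · simp only [if_neg hjm]
        refine hβ j ?_
        rw [Finset.mem_Icc] at hj ⊢
        omega

/-- Regularity of the local rings of the charts of the lattice. -/
theorem gdgoW (rep : S_REP) (lg : S_LG) (reg : S_REG) (𝒪 : Subring F) (hloc : IsLoc 𝒪)
    (hR : ∀ r : R, algebraMap R F r ∈ 𝒪) (hRU : ∀ r : R, U 𝒪 (algebraMap R F r) → IsUnit r)
    (hinj : Function.Injective (algebraMap R F))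
    (ϖ : R) (hϖ : Irreducible ϖ) (e : ℕ) (he : 1 ≤ e) (k : ℕ) (hk : 1 ≤ k)
    (P : MvPolynomial (Option ι) R) (hP0 : P ≠ 0)
    (hPd : P.IsWeightedHomogeneous (wt e) (k * e))
    (hc : IsUnit (coeff (Finsupp.single none k) P))
    (hnd : ∀ (s : ι) (Q : Ideal (MvPolynomial (Option {j // j ≠ s}) R)), Q.IsPrime →
      dehW s P ∈ Q → (∀ r : R, C r ∈ Q ↔ ¬ IsUnit r) → (∃ j, pderiv j (dehW s P) ∉ Q) ∨
        (hess (dehW s P)).det ∉ Q)
    (μ m : ℕ) (hμm : μ < 2 * m)
    (hμ : ∀ s, C ϖ ^ μ ∈ Ideal.span (insert (dehW s P)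
      (Set.range fun j => pderiv j (dehW s P))))
    (v : Option ι → F) (hrel : aeval v P = 0)
    (hind : ∀ s, v (some s) ≠ 0 → ∃ j₀ : Option {i : ι // i ≠ s},
      AlgebraicIndependent R (fun i : {i : Option {i : ι // i ≠ s} // i ≠ j₀} =>
        v ((i : Option {i : ι // i ≠ s}).map Subtype.val) /
          v (some s) ^ wt e (i : Option {i : ι // i ≠ s})))
    (D' : ℕ) (hD' : 1 ≤ D') (g : F) (hg0 : g ≠ 0)
    (hg : g ∈ Submodule.span R (GGW (Set.range (zz e v)) (algebraMap R F ϖ)
      (XiW e v fun i => aeval v (pderiv i P)) k D' m))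
    (hG : ∀ h ∈ GGW (Set.range (zz e v)) (algebraMap R F ϖ)
      (XiW e v fun i => aeval v (pderiv i P)) k D' m, h / g ∈ 𝒪)
    (hloc2 : IsLocOf 𝒪 (chart R (Submodule.span R (GGW (Set.range (zz e v)) (algebraMap R F ϖ)
      (XiW e v fun i => aeval v (pderiv i P)) k D' m)) g)) :
    IsRegularLocalRing 𝒪 := by
  have hcU : U 𝒪 (algebraMap R F (coeff (Finsupp.single none k) P)) := by
    obtain ⟨u, hu⟩ := hc
    rw [← hu]
    have h1 : algebraMap R F (u : R) * algebraMap R F ((u⁻¹ : Rˣ) : R) = 1 := by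
      rw [← map_mul, Units.mul_inv, map_one]
    refine ⟨left_ne_zero_of_mul_eq_one h1, hR _, ?_⟩
    rw [inv_eq_of_mul_eq_one_right h1]
    exact hR _
  obtain ⟨g₁, hg₁, hU₁⟩ := exists_U_gen hloc hR _ g hg0 hG hg
  obtain ⟨g₀, hg₀, hg₀2, gs, hgs, hU⟩ := splitW 𝒪 _ _ _ k D' m g hG ⟨g₁, hg₁, hU₁⟩
  have hne : g₀ * ∏ j ∈ Finset.Icc 1 m, gs j ≠ 0 := by
    intro h
    rw [h, div_zero] at hU
    exact not_U_zero hU
  have hg₀0 : g₀ ≠ 0 := left_ne_zero_of_mul hne
  have hgs0 : ∀ j ∈ Finset.Icc 1 m, gs j ≠ 0 := Finset.prod_ne_zero_iff.1 (right_ne_zero_of_mul hne)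
  obtain ⟨g₀', hg₀', hU₀'⟩ := exists_x_gen hloc hR e k he P hPd v hcU hrel D' g₀ hg₀2 g₀ hg₀
    (by rw [div_self hg₀0]; exact U_one)
  have heD : 1 ≤ e * D' := Nat.mul_pos he hD'
  obtain ⟨s, hs, hz, hU0⟩ := Pool.Agent.H945R2.D.GD1aux.exists_coord 𝒪 (fun j => v (some j))
    (e * D') heD g₀ (fun h hh => hg₀2 h (sub_zz e D' v hh)) g₀' hg₀' hU₀'
  obtain ⟨j₀, hj₀⟩ := hind s hs
  set t : Option {j // j ≠ s} → F := tv e v s with ht
  have htO : ∀ j, t j ∈ 𝒪 := by
    intro j
    rcases j with _ | j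
    · obtain ⟨D'', rfl⟩ : ∃ D'', D' = D'' + 1 := ⟨D' - 1, by omega⟩
      have h1 : v none * v (some s) ^ (e * D'') ∈ Set.range (zz e v) ^ (D'' + 1) := by
        rw [pow_succ', pow_mul]
        refine Set.mul_mem_mul ⟨.inr (), rfl⟩ ?_
        refine Set.pow_mem_pow ⟨.inl fun _ => s, ?_⟩
        simp [zz]
      have h2 := hg₀2 _ h1
      have h3 : t none = (v none * v (some s) ^ (e * D'') / g₀) *
          (g₀ / v (some s) ^ (e * (D'' + 1))) := by
        simp only [ht, tv, wt_none, Option.map_none]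
        rw [mul_add, mul_one, pow_add]
        have h4 := pow_ne_zero e hs
        have h5 := pow_ne_zero (e * D'') hs
        field_simp
      rw [h3]
      exact 𝒪.mul_mem h2 hU0.2.1
    · have h1 : t (some j) = v (some (j : ι)) / v (some s) := by
        simp only [ht, tv, wt_some, pow_one, Option.map_some]
      rw [h1]
      exact hz j
  have hEt : aeval t (dehW s P) = 0 := by
    rw [ht, aeval_chart_valW e s v hs P _ hPd, hrel, zero_div]
  have hxe : v (some s) ^ (e * k) ≠ 0 := pow_ne_zero _ hs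
  have heB : ∀ b : MvPolynomial (Option {j // j ≠ s}) R, aeval t b ∈ 𝒪 := by
    intro w
    induction w using MvPolynomial.induction_on with
    | C r => rw [aeval_C]; exact hR r
    | add p q hp hq => rw [map_add]; exact 𝒪.add_mem hp hq
    | mul_X p j hp => rw [map_mul, aeval_X]; exact 𝒪.mul_mem hp (htO _)
  have hnd' : (∃ j, U 𝒪 (aeval t (pderiv j (dehW s P)))) ∨
      U 𝒪 (aeval t (hess (dehW s P)).det) := by
    let eB : MvPolynomial (Option {j // j ≠ s}) R →ₐ[R] F := aeval t
    let Q : Ideal (MvPolynomial (Option {j // j ≠ s}) R) :=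
      primeOf hloc (eB : MvPolynomial (Option {j // j ≠ s}) R →+* F) heB
    have hQp : Q.IsPrime := primeOf_isPrime hloc _ heB
    have hQ : ∀ b, b ∈ Q ↔ ¬ U 𝒪 (eB b) := fun b => mem_primeOf hloc _ heB b
    have hQC : ∀ r : R, C r ∈ Q ↔ ¬ IsUnit r := by
      intro r
      rw [hQ]
      change ¬ U 𝒪 (aeval t (C r)) ↔ _
      rw [aeval_C]
      refine not_congr ⟨hRU r, fun h => ?_⟩
      obtain ⟨u, rfl⟩ := h
      have h1 : algebraMap R F (u : R) * algebraMap R F ((u⁻¹ : Rˣ) : R) = 1 := by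
        rw [← map_mul, Units.mul_inv, map_one]
      refine ⟨left_ne_zero_of_mul_eq_one h1, hR _, ?_⟩
      rw [inv_eq_of_mul_eq_one_right h1]
      exact hR _
    have hEQ : dehW s P ∈ Q := by
      rw [hQ]
      change ¬ U 𝒪 (aeval t (dehW s P))
      rw [hEt]
      exact not_U_zero
    rcases hnd s Q hQp hEQ hQC with ⟨j, hj⟩ | h
    · left
      refine ⟨j, ?_⟩
      by_contra hcon
      exact hj ((hQ _).2 hcon)
    · right
      by_contra hcon
      exact h ((hQ _).2 hcon)
  refine core rep lg reg 𝒪 hloc hR hRU hinj ϖ hϖ t htO (dehW s P) (dehW_ne_zero e s P hP0 _ hPd)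
    hEt j₀ hj₀ hnd' μ m hμm (hμ s) (fun j => gs j / v (some s) ^ (e * k)) ?_ ?_ ?_ ?_ _ g
    (v (some s) ^ (e * D') * (v (some s) ^ (e * k)) ^ m)
    (mul_ne_zero (pow_ne_zero _ hs) (pow_ne_zero _ hxe))
    (GGW_form e he k hk s v hs P hPd hrel (algebraMap R F ϖ) D' m) hg ?_ hloc2
  · intro j hj
    exact div_ne_zero (hgs0 j hj) hxe
  · intro j hj
    have h0 := hgs0 j hj
    have h1 : algebraMap R F ϖ ^ j / (gs j / v (some s) ^ (e * k)) =
        (algebraMap R F ϖ ^ j * v (some s) ^ (e * k)) / gs j := by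
      field_simp
    rw [h1]
    refine (hgs j hj).2 _ (Or.inl ⟨_, ?_, rfl⟩)
    rw [pow_mul]
    refine Set.pow_mem_pow ⟨.inl fun _ => s, ?_⟩
    simp [zz]
  · intro j hj i
    have h0 := hgs0 j hj
    have hke : 1 ≤ k * e := Nat.mul_pos hk he
    rcases i with _ | i
    · have h1 : aeval t (pderiv none (dehW s P)) / (gs j / v (some s) ^ (e * k)) =
          aeval v (pderiv none P) * zz e v (.inl fun _ => s) / gs j := by
        have h2 : zz e v (.inl fun _ => s) = v (some s) ^ e := by simp [zz]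
        have h3 : e * k = (k - 1) * e + e := by
          obtain ⟨k', rfl⟩ : ∃ k', k = k' + 1 := ⟨k - 1, by omega⟩
          simp only [Nat.add_sub_cancel]
          ring
        rw [pderiv_dehW, Option.map_none, ht, aeval_chart_valW e s v hs _ ((k - 1) * e)
          (hPd.pderiv (by rw [wt_none, mul_comm k e, h3])), h2, h3, pow_add]
        have h4 := pow_ne_zero e hs
        have h5 := pow_ne_zero ((k - 1) * e) hs
        field_simp
      rw [h1]
      exact (hgs j hj).2 _ (Or.inr (Or.inl ⟨_, rfl⟩))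
    · have h1 : aeval t (pderiv (some i) (dehW s P)) / (gs j / v (some s) ^ (e * k)) =
          aeval v (pderiv (some (i : ι)) P) * v (some s) / gs j := by
        have h3 : e * k = (k * e - 1) + 1 := by
          rw [mul_comm]
          omega
        rw [pderiv_dehW, Option.map_some, ht, aeval_chart_valW e s v hs _ (k * e - 1)
          (hPd.pderiv (by rw [wt_some]; omega)), h3, pow_succ]
        have h5 := pow_ne_zero (k * e - 1) hs
        field_simp
      rw [h1]
      exact (hgs j hj).2 _ (Or.inr (Or.inr ⟨i, s, rfl⟩))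
  · intro j hj
    obtain ⟨a, b, hab⟩ := HHW_form e he k hk s v hs P hPd hrel (algebraMap R F ϖ) j (gs j)
      (hgs j hj).1
    exact ⟨aeval t a, fun i => aeval t (b i), heB a, fun i => heB _, hab⟩
  · have h1 : v (some s) ^ (e * D') * (v (some s) ^ (e * k)) ^ m *
        ∏ j ∈ Finset.Icc 1 m, gs j / v (some s) ^ (e * k) =
        v (some s) ^ (e * D') * ∏ j ∈ Finset.Icc 1 m, gs j := by
      rw [Finset.prod_div_distrib, Finset.prod_const, Nat.card_Icc, Nat.add_sub_cancel]
      have := pow_ne_zero m hxe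
      field_simp
    rw [h1]
    have h2 : g / (v (some s) ^ (e * D') * ∏ j ∈ Finset.Icc 1 m, gs j) =
        g / (g₀ * ∏ j ∈ Finset.Icc 1 m, gs j) * (g₀ / v (some s) ^ (e * D')) := by
      have := pow_ne_zero (e * D') hs
      have := right_ne_zero_of_mul hne
      field_simp
    rw [h2]
    exact hU.mul hU0

end

end Pool.Agent.Helper21K9.WO
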