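import Pool.Agent.Helper21K9.WO.Hom
import Pool.Agent.Helper21K9.OD.Latt

/-! The lattice of the model of a weighted hypersurface at a prime with nondegenerate quadratic
singularities. -/

set_option autoImplicit false
set_option linter.unusedSectionVars false
set_option linter.unusedVariables false

open MvPolynomial
open scoped Pointwise

namespace Pool.Agent.Helper21K9.WO

open Pool.Agent.H918R2.Quad Pool.Agent.TH214.RM Pool.Agent.W418 Pool.Agent.H945R2.E
  Pool.Agent.R187.WC
open Pool.Agent.Helper21K9.OD (hess S_REP S_LG S_REG core map_hess)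

/-- The fibre over `𝔭` of `P = 0` has only nondegenerate quadratic singularities. -/
def OdpW {O ι : Type} [CommRing O] [Fintype ι] [DecidableEq ι] (𝔭 : Ideal O)
    (P : MvPolynomial (Option ι) O) : Prop :=
  ∀ (s : ι) (Q : Ideal (MvPolynomial (Option {j // j ≠ s}) O)), Q.IsPrime →
    (∀ r : O, C r ∈ Q ↔ r ∈ 𝔭) →
    dehW s P ∈ Q → (∃ j, pderiv j (dehW s P) ∉ Q) ∨ (hess (dehW s P)).det ∉ Q

theorem odp_locW {O R ι : Type} [CommRing O] [CommRing R] [Algebra O R] [Fintype ι]
    [DecidableEq ι] (𝔭 : Ideal O) [𝔭.IsPrime] [IsLocalization.AtPrime R 𝔭]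
    (P : MvPolynomial (Option ι) O) (h : OdpW 𝔭 P)
    (s : ι) (Q : Ideal (MvPolynomial (Option {j : ι // j ≠ s}) R)) (hQ : Q.IsPrime)
    (hG : dehW s (map (algebraMap O R) P) ∈ Q) (hCQ : ∀ r : R, C r ∈ Q ↔ ¬ IsUnit r) :
    (∃ j, pderiv j (dehW s (map (algebraMap O R) P)) ∉ Q) ∨
      (hess (dehW s (map (algebraMap O R) P))).det ∉ Q := by
  set φ : MvPolynomial (Option {j : ι // j ≠ s}) O →+* MvPolynomial (Option {j : ι // j ≠ s}) R :=
    map (algebraMap O R) with hφ
  have hp : (Q.comap φ).IsPrime := Ideal.comap_isPrime _ _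
  have hC : ∀ r : O, C r ∈ Q.comap φ ↔ r ∈ 𝔭 := by
    intro r
    rw [Ideal.mem_comap, hφ, map_C, hCQ, IsLocalization.AtPrime.isUnit_to_map_iff R 𝔭 r]
    simp
  have hdeh : φ (dehW s P) = dehW s (map (algebraMap O R) P) := map_dehW _ _ _
  have hE : dehW s P ∈ Q.comap φ := by
    rw [Ideal.mem_comap, hdeh]
    exact hG
  rcases h s (Q.comap φ) hp hC hE with ⟨j, hj⟩ | h1
  · left
    refine ⟨j, fun h2 => hj ?_⟩
    rw [Ideal.mem_comap, hφ, ← pderiv_map, ← hφ, hdeh]
    exact h2
  · right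
    intro h2
    apply h1
    rw [Ideal.mem_comap, RingHom.map_det, RingHom.mapMatrix_apply, hφ, map_hess, ← hφ, hdeh]
    exact h2

section

variable {O F ι : Type} [CommRing O] [Field F] [Algebra O F]

theorem aeval_mem_span_powW [Fintype ι] (e D : ℕ) (he : 1 ≤ e) (v : Option ι → F)
    (P : MvPolynomial (Option ι) O) (hP : P.IsWeightedHomogeneous (wt e) (D * e)) :
    aeval v P ∈ Submodule.span O (Set.range (zz e v) ^ D) := by
  classical
  rw [aeval_def, eval₂_eq']
  refine Submodule.sum_mem _ fun s hs => ?_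
  rw [← Algebra.smul_def]
  refine Submodule.smul_mem _ _ (Submodule.subset_span ?_)
  have hw : s none * e + ∑ j, s (some j) = D * e := by
    rw [← weight_eq]
    by_contra hne
    exact (mem_support_iff.1 hs) (hP.coeff_eq_zero s hne)
  have hle : s none ≤ D := by
    by_contra hlt
    push Not at hlt
    have h1 : (D + 1) * e ≤ s none * e := Nat.mul_le_mul_right e hlt
    have h2 : (D + 1) * e = D * e + e := by ring
    omega
  obtain ⟨c, hcD⟩ : ∃ c, D = s none + c := ⟨D - s none, by omega⟩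
  have hsum : ∑ j, s (some j) = e * c := by
    have h1 : D * e = s none * e + e * c := by rw [hcD]; ring
    omega
  have h1 : ∏ i, v i ^ s i = v none ^ s none * ∏ j, v (some j) ^ s (some j) :=
    Fintype.prod_option _
  rw [h1]
  have h2 : ∏ j, v (some j) ^ s (some j) ∈ Set.range (zz e v) ^ c := by
    apply sub_zz
    have h3 := prod_mem_range_pow (fun j => v (some j)) (fun j => s (some j)) Finset.univ
    rwa [hsum] at h3
  have h3 : v none ^ s none ∈ Set.range (zz e v) ^ (s none) := Set.pow_mem_pow ⟨.inr (), rfl⟩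
  have h4 := Set.mul_mem_mul h3 h2
  rw [← pow_add, ← hcD] at h4
  exact h4

theorem GGW_subset (Z : Set F) (ϖ : O) (Ξ : Set F) (k D' : ℕ)
    (hΞ : ∀ z ∈ Ξ, z ∈ Submodule.span O (Z ^ k)) (m : ℕ) :
    Submodule.span O (GGW Z (algebraMap O F ϖ) Ξ k D' m) ≤
      Submodule.span O (Z ^ (D' + m * k)) := by
  induction m with
  | zero =>
    rw [zero_mul, add_zero]
    exact le_rfl
  | succ m ih =>
    rw [GGW, ← Submodule.span_mul_span]
    have h1 : Submodule.span O (Z ^ (D' + (m + 1) * k)) =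
        Submodule.span O (Z ^ (D' + m * k)) * Submodule.span O (Z ^ k) := by
      rw [Submodule.span_mul_span, ← pow_add]
      congr 2
      ring
    rw [h1]
    refine mul_le_mul' ih ?_
    rw [Submodule.span_le]
    rintro z (⟨y, hy, rfl⟩ | hz)
    · rw [← map_pow, ← Algebra.smul_def]
      exact Submodule.smul_mem _ _ (Submodule.subset_span hy)
    · exact hΞ z hz

theorem pow_smul_memW (Z : Set F) (ϖ : O) (Ξ : Set F) (k D' : ℕ) (m : ℕ) :
    ∃ K : ℕ, ∀ y ∈ Submodule.span O (Z ^ (D' + m * k)),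
      (ϖ ^ K) • y ∈ Submodule.span O (GGW Z (algebraMap O F ϖ) Ξ k D' m) := by
  have key : ∃ K : ℕ, ∀ y ∈ Z ^ (D' + m * k),
      (ϖ ^ K) • y ∈ Submodule.span O (GGW Z (algebraMap O F ϖ) Ξ k D' m) := by
    induction m with
    | zero =>
      refine ⟨0, fun y hy => ?_⟩
      rw [zero_mul, add_zero] at hy
      rw [pow_zero, one_smul]
      exact Submodule.subset_span hy
    | succ m ih =>
      obtain ⟨K, hK⟩ := ih
      refine ⟨K + (m + 1), fun y hy => ?_⟩
      have h1 : Z ^ (D' + (m + 1) * k) = Z ^ (D' + m * k) * Z ^ k := by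
        rw [← pow_add]
        congr 1
        ring
      rw [h1] at hy
      obtain ⟨a, ha, b, hb, rfl⟩ := Set.mem_mul.1 hy
      rw [GGW, ← Submodule.span_mul_span]
      have h2 : (ϖ ^ (K + (m + 1))) • (a * b) = ((ϖ ^ K) • a) * ((ϖ ^ (m + 1)) • b) := by
        rw [pow_add, smul_mul_smul_comm]
      rw [h2]
      refine Submodule.mul_mem_mul (hK a ha) (Submodule.subset_span (Or.inl ⟨b, hb, ?_⟩))
      rw [Algebra.smul_def, map_pow]
  obtain ⟨K, hK⟩ := key
  refine ⟨K, fun y hy => ?_⟩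
  induction hy using Submodule.span_induction with
  | mem y hy => exact hK y hy
  | zero => rw [smul_zero]; exact Submodule.zero_mem _
  | add a b _ _ ha hb => rw [smul_add]; exact Submodule.add_mem _ ha hb
  | smul r a _ ha => rw [smul_comm]; exact Submodule.smul_mem _ _ ha

theorem XiW_mem [Fintype ι] (e k : ℕ) (he : 1 ≤ e) (hk : 1 ≤ k) (v : Option ι → F)
    (P : MvPolynomial (Option ι) O) (hP : P.IsWeightedHomogeneous (wt e) (k * e)) :
    ∀ z ∈ XiW e v (fun i => aeval v (pderiv i P)), z ∈ Submodule.span O (Set.range (zz e v) ^ k) := by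
  have hke : 1 ≤ k * e := Nat.mul_pos hk he
  rintro z (⟨a, rfl⟩ | ⟨i, l, rfl⟩)
  · obtain ⟨k', rfl⟩ : ∃ k', k = k' + 1 := ⟨k - 1, by omega⟩
    rw [pow_succ, ← Submodule.span_mul_span]
    refine Submodule.mul_mem_mul ?_ (Submodule.subset_span ⟨a, rfl⟩)
    refine aeval_mem_span_powW e k' he v _ (hP.pderiv ?_)
    rw [wt_none]
    ring
  · have h1 : aeval v (pderiv (some i) P) * v (some l) =
        aeval v (pderiv (some i) P * X (some l)) := by
      rw [map_mul, aeval_X]
    simp only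
    rw [h1]
    refine aeval_mem_span_powW e k he v _ ?_
    have h2 : (pderiv (some i) P).IsWeightedHomogeneous (wt e) (k * e - 1) := hP.pderiv (by
      rw [wt_some]
      omega)
    have h3 := h2.mul (isWeightedHomogeneous_X O (wt e) (some l))
    rw [wt_some, Nat.sub_add_cancel hke] at h3
    exact h3

end

section

variable {O K F : Type} [CommRing O] [IsDedekindDomain O] [Field K] [Algebra O K]
  [IsFractionRing O K] [Field F] [Algebra K F] [Algebra O F] [IsScalarTower O K F]

include K in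
theorem regAt_of_odpW (rep : S_REP) (lg : S_LG) (reg : S_REG)
    (𝔭 : Ideal O) [𝔭.IsPrime] {n e k : ℕ} (he : 1 ≤ e) (hk : 1 ≤ k)
    (P : MvPolynomial (Option (Fin (n + 1))) O)
    (R : Subalgebra O K) [IsLocalization.AtPrime R 𝔭] [IsDiscreteValuationRing R]
    [IsFractionRing R K]
    (hPd : P.IsWeightedHomogeneous (wt e) (k * e))
    (hc : coeff (Finsupp.single none k) P ∉ 𝔭) (hodp : OdpW 𝔭 P)
    (ϖ : O) (hϖ : Irreducible (algebraMap O R ϖ)) (μ m : ℕ) (hμm : μ < 2 * m)
    (hμ : ∀ s, C (algebraMap O R ϖ) ^ μ ∈ Ideal.span (insert (dehW s (map (algebraMap O R) P))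
      (Set.range fun j => pderiv j (dehW s (map (algebraMap O R) P)))))
    (x : Option (Fin (n + 1)) → F) (hx0 : x (some 0) = 1)
    (hgen : IntermediateField.adjoin K (Set.range x) = ⊤)
    (b : Fin n → F) (htb : IsTranscendenceBasis K b)
    (v : Option (Fin (n + 1)) → F) (u : Fin (n + 1) → Fin (n + 1) → K)
    (hu : ∀ i, x (some i) = ∑ j, algebraMap K F (u i j) * v (some j))
    (hw : x none ∈ IntermediateField.adjoin K (Set.range v)) (hrel : aeval v P = 0)
    (D' : ℕ) (hD' : 1 ≤ D') (M : Submodule O F)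
    (hM : ∀ y ∈ M, ∃ s, s ∉ 𝔭 ∧ s • y ∈ Submodule.span O (GGW (Set.range (zz e v))
      (algebraMap O F ϖ) (XiW e v fun i => aeval v (pderiv i P)) k D' m))
    (hM2 : ∀ y ∈ Submodule.span O (GGW (Set.range (zz e v)) (algebraMap O F ϖ)
      (XiW e v fun i => aeval v (pderiv i P)) k D' m), ∃ s, s ∉ 𝔭 ∧ s • y ∈ M) : RegAt 𝔭 M := by
  intro f hfM hf q hqp hq
  have : IsScalarTower O R F := IsScalarTower.of_algebraMap_eq fun r => by
    rw [IsScalarTower.algebraMap_apply O K F]; rfl
  have : IsScalarTower R K F := IsScalarTower.of_algebraMap_eq fun r => rfl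
  have hinjOR : Function.Injective (algebraMap O R) :=
    IsLocalization.injective R 𝔭.primeCompl_le_nonZeroDivisors
  have hinj : Function.Injective (algebraMap R K) := IsFractionRing.injective R K
  have hinjF : Function.Injective (algebraMap R F) := by
    rw [IsScalarTower.algebraMap_eq R K F]
    exact (algebraMap K F).injective.comp hinj
  set 𝒢 := GGW (Set.range (zz e v)) (algebraMap O F ϖ)
    (XiW e v fun i => aeval v (pderiv i P)) k D' m with h𝒢
  have hMG : ∀ y ∈ M, y ∈ Submodule.span R 𝒢 := by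
    intro y hy
    obtain ⟨s, hs, hsy⟩ := hM y hy
    have h1 : s • y ∈ Submodule.span R 𝒢 := Submodule.span_subset_span O R _ hsy
    have h2 : IsUnit (algebraMap O R s) := IsLocalization.map_units R (⟨s, hs⟩ : 𝔭.primeCompl)
    obtain ⟨w, hw⟩ := h2
    have h3 : y = ((w⁻¹ : Rˣ) : R) • (s • y) := by
      rw [← algebraMap_smul R s y, ← hw, smul_smul, Units.inv_mul, one_smul]
    rw [h3]
    exact Submodule.smul_mem _ _ h1
  have hGM : ∀ y ∈ Submodule.span R 𝒢, ∃ s, s ∉ 𝔭 ∧ s • y ∈ M := by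
    intro y hy
    obtain ⟨s, hs, hsy⟩ := clear_denom 𝔭 𝒢 y hy
    obtain ⟨t, ht, hty⟩ := hM2 _ hsy
    refine ⟨t * s, fun h => (Ideal.IsPrime.mem_or_mem ‹𝔭.IsPrime› h).elim ht hs, ?_⟩
    rw [mul_smul]
    exact hty
  obtain ⟨𝒪, hloc, hR, hRU, hloc2, hG, hreg⟩ :=
    transfer (R := R) 𝔭 M 𝒢 hMG hGM f q hq
  apply hreg
  have hrel' : aeval v (map (algebraMap O R) P) = 0 := by
    rw [aeval_map_algebraMap, hrel]
  have hind : ∀ s, v (some s) ≠ 0 → ∃ j₀ : Option {i : Fin (n + 1) // i ≠ s},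
      AlgebraicIndependent R (fun i : {i : Option {i : Fin (n + 1) // i ≠ s} // i ≠ j₀} =>
        v ((i : Option {i : Fin (n + 1) // i ≠ s}).map Subtype.val) /
          v (some s) ^ wt e (i : Option {i : Fin (n + 1) // i ≠ s})) := by
    intro s hs
    obtain ⟨j₀, hj₀⟩ := hindW (K := K) (e := e) x hx0 hgen b htb v u hu hw s hs
    exact ⟨j₀, hj₀.restrictScalars hinj⟩
  have hcR : IsUnit (coeff (Finsupp.single none k) (map (algebraMap O R) P)) := by
    rw [coeff_map]
    exact IsLocalization.map_units R (⟨_, hc⟩ : 𝔭.primeCompl)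
  have hP0' : map (algebraMap O R) P ≠ 0 := by
    intro h
    rw [h, coeff_zero] at hcR
    exact not_isUnit_zero hcR
  have h𝒢' : GGW (Set.range (zz e v)) (algebraMap R F (algebraMap O R ϖ))
      (XiW e v fun i => aeval v (pderiv i (map (algebraMap O R) P))) k D' m = 𝒢 := by
    rw [h𝒢, ← IsScalarTower.algebraMap_apply O R F]
    congr 2
    funext i
    rw [pderiv_map, aeval_map_algebraMap]
  refine gdgoW rep lg reg 𝒪 hloc hR hRU hinjF (algebraMap O R ϖ) hϖ e he k hk
    (map (algebraMap O R) P) hP0' (whom_map _ hPd) hcR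
    (fun s Q hQ hGQ hC => odp_locW 𝔭 P hodp s Q hQ hGQ hC) μ m hμm hμ v hrel' hind
    D' hD' f hf ?_ ?_ ?_
  · rw [h𝒢']
    exact hMG f hfM
  · rw [h𝒢']
    exact hG
  · rw [h𝒢']
    exact hloc2

theorem zz_mem_span {n e : ℕ} (x v : Option (Fin (n + 1)) → F) (u : Fin (n + 1) → Fin (n + 1) → K)
    (hu : ∀ i, x (some i) = ∑ j, algebraMap K F (u i j) * v (some j))
    (hw : x none ∈ Submodule.span K (Set.range (zz e v))) :
    ∀ i, zz e x i ∈ Submodule.span K (Set.range (zz e v)) := by
  intro i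
  rcases i with φ | _
  · have h1 : ∀ i, x (some i) ∈ Submodule.span K (Set.range fun j => v (some j)) := by
      intro i
      rw [hu]
      refine Submodule.sum_mem _ fun j _ => ?_
      rw [← Algebra.smul_def]
      exact Submodule.smul_mem _ _ (Submodule.subset_span ⟨j, rfl⟩)
    have h2 : zz e x (.inl φ) ∈ Submodule.span K (Set.range fun j => x (some j)) ^ e := by
      rw [Submodule.span_pow]
      refine Submodule.subset_span ?_
      rw [Pool.Agent.H945R2.D.GD1aux.mem_range_pow]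
      exact ⟨φ, rfl⟩
    have h3 : Submodule.span K (Set.range fun j => x (some j)) ^ e ≤
        Submodule.span K (Set.range fun j => v (some j)) ^ e := by
      refine pow_le_pow_left' ?_ e
      rw [Submodule.span_le]
      rintro _ ⟨i, rfl⟩
      exact h1 i
    have h4 := h3 h2
    rw [Submodule.span_pow] at h4
    refine Submodule.span_mono ?_ h4
    rw [range_zz]
    exact Set.subset_union_left
  · exact hw

include K in
/-- The local module at a prime whose fibre has only nondegenerate quadratic singularities. -/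
theorem locMod_of_odpW (rep : S_REP) (lg : S_LG) (reg : S_REG)
    (𝔭 : Ideal O) [𝔭.IsPrime] (h0 : 𝔭 ≠ ⊥) {n e k : ℕ} (he : 1 ≤ e) (hk : 1 ≤ k)
    (P : MvPolynomial (Option (Fin (n + 1))) O)
    (hPd : P.IsWeightedHomogeneous (wt e) (k * e))
    (hc : coeff (Finsupp.single none k) P ∉ 𝔭) (hodp : OdpW 𝔭 P)
    (c : O) (hc0 : c ≠ 0) (hcv : ∀ s, C c ∈ Ideal.span (insert (dehW s P)
      (Set.range fun j => pderiv j (dehW s P))))
    (x : Option (Fin (n + 1)) → F) (hx0 : x (some 0) = 1)
    (hgen : IntermediateField.adjoin K (Set.range x) = ⊤)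
    (b : Fin n → F) (htb : IsTranscendenceBasis K b)
    (v : Option (Fin (n + 1)) → F) (u u' : Fin (n + 1) → Fin (n + 1) → K)
    (hu : ∀ i, x (some i) = ∑ j, algebraMap K F (u i j) * v (some j))
    (hu' : ∀ i, v (some i) = ∑ j, algebraMap K F (u' i j) * x (some j))
    (hw : x none ∈ Submodule.span K (Set.range (zz e v)))
    (hw' : v none ∈ Submodule.span K (Set.range (zz e x))) (hrel : aeval v P = 0) :
    LocMod 𝔭 (zz e x) := by
  have hw2 : x none ∈ IntermediateField.adjoin K (Set.range v) := by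
    have h1 : ∀ i, zz e v i ∈ IntermediateField.adjoin K (Set.range v) := by
      intro i
      rcases i with φ | _
      · exact prod_mem fun k _ => IntermediateField.subset_adjoin K _ ⟨_, rfl⟩
      · exact IntermediateField.subset_adjoin K _ ⟨_, rfl⟩
    have h2 : Submodule.span K (Set.range (zz e v)) ≤
        Subalgebra.toSubmodule (IntermediateField.adjoin K (Set.range v)).toSubalgebra := by
      rw [Submodule.span_le]
      rintro _ ⟨i, rfl⟩
      exact h1 i
    exact h2 hw
  refine locMod_lin (K := K) 𝔭 h0 (zz e x) (zz e v) (zz_mem_span v x u' hu' hw')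
    (zz_mem_span x v u hu hw) ?_
  have h1𝔭 : (1 : O) ∉ 𝔭 := (Ideal.ne_top_iff_one 𝔭).1 Ideal.IsPrime.ne_top'
  let R := Localization.subalgebra.ofField K 𝔭.primeCompl 𝔭.primeCompl_le_nonZeroDivisors
  have : IsLocalization.AtPrime R 𝔭 := Localization.subalgebra.isLocalization_ofField K _ _
  have : IsFractionRing R K := Localization.subalgebra.isFractionRing_ofField K _ _
  have : IsDiscreteValuationRing R :=
    IsLocalization.AtPrime.isDiscreteValuationRing_of_dedekind_domain O h0 R
  have hinjOR : Function.Injective (algebraMap O R) :=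
    IsLocalization.injective R 𝔭.primeCompl_le_nonZeroDivisors
  obtain ⟨π, hπ⟩ := IsDiscreteValuationRing.exists_irreducible R
  obtain ⟨⟨ϖ, s₀⟩, hs₀⟩ := IsLocalization.surj 𝔭.primeCompl π
  have hϖ : Irreducible (algebraMap O R ϖ) := by
    have h1 : IsUnit (algebraMap O R s₀) := IsLocalization.map_units R s₀
    rw [← hs₀]
    exact (irreducible_mul_isUnit h1).2 hπ
  have hc' : algebraMap O R c ≠ 0 := fun h => hc0 (hinjOR (by rw [h, map_zero]))
  obtain ⟨μ, w, hw⟩ := IsDiscreteValuationRing.eq_unit_mul_pow_irreducible hc' hϖ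
  have hμ : ∀ s, C (algebraMap O R ϖ) ^ μ ∈ Ideal.span (insert (dehW s (map (algebraMap O R) P))
      (Set.range fun j => pderiv j (dehW s (map (algebraMap O R) P)))) := by
    intro s
    have h1 : C (algebraMap O R c) ∈ Ideal.span (insert (dehW s (map (algebraMap O R) P))
      (Set.range fun j => pderiv j (dehW s (map (algebraMap O R) P)))) := by
      have h2 := Ideal.mem_map_of_mem (map (algebraMap O R) :
        MvPolynomial (Option {j // j ≠ s}) O →+* MvPolynomial (Option {j // j ≠ s}) R) (hcv s)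
      rw [map_C, Ideal.map_span, Set.image_insert_eq, map_dehW, ← Set.range_comp] at h2
      convert h2 using 4
      funext j
      simp only [Function.comp]
      rw [← pderiv_map, map_dehW]
    have h3 : (C (algebraMap O R ϖ) ^ μ : MvPolynomial (Option {j // j ≠ s}) R) =
        C ((w⁻¹ : Rˣ) : R) * C (algebraMap O R c) := by
      rw [hw, ← C_mul, ← C_pow, ← mul_assoc, Units.inv_mul, one_mul]
    rw [h3]
    exact Ideal.mul_mem_left _ _ h1
  set m := μ + 1 with hm
  have hξm := XiW_mem e k he hk v P hPd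
  refine ⟨m * k + 1, fun D hD => ?_⟩
  obtain ⟨D', hDD'⟩ : ∃ D', D = D' + m * k := ⟨D - m * k, by omega⟩
  have hD' : 1 ≤ D' := by omega
  subst hDD'
  set N := Submodule.span O (Set.range (zz e v) ^ (D' + m * k)) with hN
  set L := Submodule.span O (GGW (Set.range (zz e v)) (algebraMap O F ϖ)
    (XiW e v fun i => aeval v (pderiv i P)) k D' m) with hL
  have hLN : L ≤ N := GGW_subset _ ϖ _ k D' hξm m
  let L' : Submodule O F :=
    { carrier := {y | y ∈ N ∧ ∃ s : O, s ∉ 𝔭 ∧ s • y ∈ L}
      zero_mem' := ⟨N.zero_mem, 1, h1𝔭, by rw [smul_zero]; exact L.zero_mem⟩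
      add_mem' := by
        rintro y z ⟨hy, s, hs, hsy⟩ ⟨hz, t, ht, htz⟩
        refine ⟨N.add_mem hy hz, s * t, fun h => (Ideal.IsPrime.mem_or_mem ‹𝔭.IsPrime› h).elim
          hs ht, ?_⟩
        rw [smul_add]
        refine L.add_mem ?_ ?_
        · rw [mul_comm, mul_smul]
          exact L.smul_mem _ hsy
        · rw [mul_smul]
          exact L.smul_mem _ htz
      smul_mem' := by
        rintro r y ⟨hy, s, hs, hsy⟩
        refine ⟨N.smul_mem r hy, s, hs, ?_⟩
        rw [smul_comm s r y]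
        exact L.smul_mem _ hsy }
  refine ⟨L', ?_, ?_, ?_⟩
  · intro y hy
    exact ⟨1, h1𝔭, by rw [one_smul]; exact hy.1⟩
  · obtain ⟨K₀, hK₀⟩ := pow_smul_memW (Set.range (zz e v)) ϖ
      (XiW e v fun i => aeval v (pderiv i P)) k D' m
    have hϖ0 : ϖ ^ K₀ ≠ 0 := by
      refine pow_ne_zero _ ?_
      rintro rfl
      rw [map_zero] at hϖ
      exact hϖ.ne_zero rfl
    obtain ⟨k', hk'⟩ := exists_pow_dvd 𝔭 h0 (ϖ ^ K₀) hϖ0 0
    refine ⟨k', fun c hc y hy => ?_⟩
    obtain ⟨s, hs, d', hd', hscd⟩ := hk' c hc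
    refine ⟨N.smul_mem _ hy, s, hs, ?_⟩
    rw [smul_smul, hscd, mul_comm, mul_smul]
    exact L.smul_mem _ (hK₀ y hy)
  · intro M hMP hPM
    refine regAt_of_odpW rep lg reg 𝔭 he hk P R hPd hc hodp ϖ hϖ μ m (by omega) hμ x hx0 hgen b
      htb v u hu hw2 hrel D' hD' M ?_ ?_
    · intro y hy
      exact (hMP hy).2
    · intro y hy
      exact hPM y ⟨hLN hy, 1, h1𝔭, by rw [one_smul]; exact hy⟩

end

end Pool.Agent.Helper21K9.WO
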