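import Pool.Agent.Helper21K9.WO.Stm
import Pool.Agent.Helper21K9.OD.Smq

/-!
[SMQW] A covering which is smooth modulo a prime is smooth over the rational numbers.

A singular point over a field `K` of characteristic zero with a nonzero coordinate of weight one has
a multiple (for the weighted action) whose coordinates are integral at a valuation ring of `K` above
`p`, one of those of weight one being equal to one; the coordinate of weight `e` is integral by the
monic equation.
-/

set_option autoImplicit false

open MvPolynomial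

namespace Pool.Agent.Helper21K9.WO

open Pool.Agent.R187.WC Pool.Agent.Helper21K9.SV Pool.Agent.Helper21K9.OD

namespace SmqwL

/-- the exponents of a monomial of weight `m e` -/
theorem exp_cases {ι : Type} [Fintype ι] {m e : ℕ} (he : 1 ≤ e) (σ : Option ι →₀ ℕ)
    (hσ : Finsupp.weight (wt e) σ = m * e) :
    σ none < m ∨ σ = Finsupp.single none m := by
  classical
  rw [weight_eq] at hσ
  by_cases h : σ none < m
  · exact Or.inl h
  · right
    have h1 : m * e ≤ σ none * e := Nat.mul_le_mul_right e (by omega)
    have h2 : ∑ j, σ (some j) = 0 := by omega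
    have h3 : σ none * e = m * e := by omega
    have h4 : σ none = m := Nat.eq_of_mul_eq_mul_right (by omega) h3
    rw [Finset.sum_eq_zero_iff] at h2
    ext o
    rcases o with _ | j
    · simp [h4]
    · rw [h2 j (Finset.mem_univ j)]
      simp

/-- the integrality of the coordinate of weight `e` -/
theorem int_none {K ι : Type} [Field K] [Fintype ι] (B : ValuationSubring K) {m e : ℕ}
    (he : 1 ≤ e) (P : MvPolynomial (Option ι) ℤ) (hP : P.IsWeightedHomogeneous (wt e) (m * e))
    (hc : coeff (Finsupp.single none m) P = 1) (t : Option ι → K)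
    (ht : ∀ j, t (some j) ∈ B) (h0 : aeval t P = 0) : t none ∈ B := by
  classical
  by_contra hn
  have hv : 1 < B.valuation (t none) := by
    rw [← B.valuation_le_one_iff] at hn
    exact not_le.mp hn
  have hz : ∀ z : ℤ, B.valuation (z : K) ≤ 1 := by
    intro z
    rw [B.valuation_le_one_iff]
    exact intCast_mem B z
  have hmem : Finsupp.single none m ∈ P.support := by
    rw [mem_support_iff, hc]
    exact one_ne_zero
  have h1 : (t none) ^ m = -∑ σ ∈ P.support.erase (Finsupp.single none m),
      ((coeff σ P : ℤ) : K) * ∏ o, t o ^ σ o := by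
    rw [aeval_def, eval₂_eq', ← Finset.add_sum_erase _ _ hmem, hc] at h0
    have h2 : ∏ o, t o ^ (Finsupp.single (none : Option ι) m) o = t none ^ m := by
      rw [Finset.prod_eq_single none]
      · simp
      · intro o _ ho
        rw [Finsupp.single_apply, if_neg (fun h => ho h.symm), pow_zero]
      · intro h
        exact absurd (Finset.mem_univ _) h
    rw [h2, map_one, one_mul] at h0
    rw [eq_neg_iff_add_eq_zero]
    exact h0
  have h2 : B.valuation (t none ^ m) < B.valuation (t none) ^ m := by
    rw [h1, Valuation.map_neg]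
    refine Valuation.map_sum_lt _ (pow_ne_zero _ (ne_of_gt (lt_trans zero_lt_one hv))) ?_
    intro σ hσ
    rw [Finset.mem_erase] at hσ
    have hw : Finsupp.weight (wt e) σ = m * e := by
      by_contra hne
      exact (mem_support_iff.1 hσ.2) (hP.coeff_eq_zero σ hne)
    have hlt : σ none < m := (exp_cases he σ hw).resolve_right hσ.1
    rw [map_mul, map_prod, Fintype.prod_option]
    have h3 : ∏ i : ι, B.valuation (t (some i) ^ σ (some i)) ≤ 1 := by
      refine Finset.prod_le_one' fun i _ => ?_
      rw [B.valuation_le_one_iff]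
      exact pow_mem (ht i) _
    have h4 : B.valuation ((coeff σ P : ℤ) : K) ≤ 1 := hz _
    calc B.valuation ((coeff σ P : ℤ) : K) * (B.valuation (t none ^ σ none) *
          ∏ i : ι, B.valuation (t (some i) ^ σ (some i)))
        ≤ 1 * (B.valuation (t none ^ σ none) * 1) :=
          mul_le_mul' h4 (mul_le_mul' le_rfl h3)
      _ = B.valuation (t none) ^ σ none := by rw [one_mul, mul_one, map_pow]
      _ < B.valuation (t none) ^ m := pow_lt_pow_right₀ hv hlt
  rw [map_pow] at h2
  exact lt_irrefl _ h2

/-- Reduction of a singular point. -/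
theorem key (K : Type) [Field K] [CharZero K] {n m e p : ℕ} (hm : 1 ≤ m) (he : 1 ≤ e)
    (hp : p.Prime) (P : MvPolynomial (Option (Fin (n + 1))) ℤ)
    (hP : P.IsWeightedHomogeneous (wt e) (m * e)) (hc : coeff (Finsupp.single none m) P = 1)
    (x : Option (Fin (n + 1)) → K) (i : Fin (n + 1)) (hxi : x (some i) ≠ 0)
    (hz' : ∀ j, eval₂ (Int.castRingHom K) x (pderiv j P) = 0) :
    ∃ (s : Fin (n + 1)) (Q : Ideal (MvPolynomial (Option {j // j ≠ s}) ℤ)), Q.IsPrime ∧
      (∀ z : ℤ, C z ∈ Q ↔ (p : ℤ) ∣ z) ∧ dehW s P ∈ Q ∧ ∀ j, pderiv j (dehW s P) ∈ Q := by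
  classical
  have hz : ∀ j, aeval x (pderiv j P) = 0 := by
    intro j
    rw [aeval_def, RingHom.ext_int (algebraMap ℤ K) (Int.castRingHom K)]
    exact hz' j
  -- Euler
  have hP0 : aeval x P = 0 := by
    have h1 := congrArg (aeval x) hP.sum_weight_X_mul_pderiv
    rw [map_sum, map_nsmul] at h1
    simp only [map_nsmul, map_mul, hz, mul_zero, smul_zero, Finset.sum_const_zero] at h1
    rw [nsmul_eq_mul] at h1
    have h2 : ((m * e : ℕ) : K) ≠ 0 := by
      rw [Nat.cast_ne_zero]
      exact Nat.mul_ne_zero (by omega) (by omega)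
    exact (mul_eq_zero.mp h1.symm).resolve_left h2
  obtain ⟨B, hB⟩ := SmqL.exists_val K hp
  obtain ⟨s, -, hs⟩ := Finset.exists_max_image Finset.univ (fun j => B.valuation (x (some j)))
    ⟨i, Finset.mem_univ i⟩
  have hxs : x (some s) ≠ 0 := by
    intro h
    have h1 := hs i (Finset.mem_univ i)
    simp only [h, map_zero] at h1
    have h2 := le_antisymm h1 zero_le
    rw [map_eq_zero] at h2
    exact hxi h2
  let T : K := (x (some s))⁻¹
  let t : Option (Fin (n + 1)) → K := fun j => x j * T ^ wt e j
  have hts : t (some s) = 1 := by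
    show x (some s) * T ^ 1 = 1
    rw [pow_one]
    exact mul_inv_cancel₀ hxs
  have htB1 : ∀ j, t (some j) ∈ B := by
    intro j
    rw [← B.valuation_le_one_iff]
    have h1 := hs j (Finset.mem_univ j)
    show B.valuation (x (some j) * T ^ 1) ≤ 1
    rw [pow_one, map_mul, map_inv₀]
    have h2 : 0 < B.valuation (x (some s)) := by
      rw [zero_lt_iff, Ne, map_eq_zero]
      exact hxs
    rwa [mul_inv_le_iff₀ h2, one_mul]
  have htB : ∀ j, t j ∈ B := by
    intro j
    rcases j with _ | j
    · refine int_none B he P hP hc t htB1 ?_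
      rw [aeval_scaleW e x T (m * e) P hP, hP0, zero_mul]
    · exact htB1 j
  let ψ : MvPolynomial (Option {j : Fin (n + 1) // j ≠ s}) ℤ →+* B :=
    (aeval (fun j : Option {j : Fin (n + 1) // j ≠ s} =>
      (⟨t (j.map Subtype.val), htB _⟩ : B))).toRingHom
  have hψ : ∀ f, ((ψ f : B) : K) =
      aeval (fun j : Option {j : Fin (n + 1) // j ≠ s} => t (j.map Subtype.val)) f := by
    intro f
    have h1 : (B.subtype.comp ψ) =
        (aeval (fun j : Option {j : Fin (n + 1) // j ≠ s} => t (j.map Subtype.val))).toRingHom := by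
      apply MvPolynomial.ringHom_ext
      · intro z
        simp [ψ]
      · intro j
        simp [ψ]
    exact congrArg (fun g => g f) h1
  have hzero : ∀ (R : MvPolynomial (Option (Fin (n + 1))) ℤ) (N : ℕ),
      R.IsWeightedHomogeneous (wt e) N → aeval x R = 0 → ψ (dehW s R) = 0 := by
    intro R N hR h0
    apply Subtype.ext
    rw [hψ, aeval_dehW s t hts R, aeval_scaleW e x T N R hR, h0, zero_mul]
    rfl
  refine ⟨s, (IsLocalRing.maximalIdeal B).comap ψ, Ideal.comap_isPrime _ _, ?_, ?_, ?_⟩
  · have hpB : ((p : ℤ) : B) ∈ IsLocalRing.maximalIdeal B := by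
      rw [← ValuationSubring.coe_mem_nonunits_iff]
      have h1 : ((((p : ℤ) : B)) : K) = (p : K) := by simp
      rw [h1]
      exact hB
    intro z
    rw [Ideal.mem_comap]
    have h0 : ψ (C z) = (z : B) := by simp [ψ]
    rw [h0]
    constructor
    · intro hzm
      by_contra hnd
      have hc : IsCoprime (p : ℤ) z :=
        (Nat.prime_iff_prime_int.mp hp).irreducible.coprime_iff_not_dvd.mpr hnd
      obtain ⟨a, b, hab⟩ := hc
      have h1 : (1 : B) ∈ IsLocalRing.maximalIdeal B := by
        have h2 : ((a * (p : ℤ) + b * z : ℤ) : B) = 1 := by rw [hab]; simp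
        rw [← h2]
        push_cast
        exact Ideal.add_mem _ (Ideal.mul_mem_left _ _ (by simpa using hpB))
          (Ideal.mul_mem_left _ _ hzm)
      exact (Ideal.ne_top_iff_one _).mp (IsLocalRing.maximalIdeal.isMaximal B).ne_top h1
    · rintro ⟨w, rfl⟩
      push_cast
      exact Ideal.mul_mem_right _ _ (by simpa using hpB)
  · rw [Ideal.mem_comap, hzero P (m * e) hP hP0]
    exact Ideal.zero_mem _
  · intro j
    rw [Ideal.mem_comap, pderiv_dehW]
    have hle : e ≤ m * e := Nat.le_mul_of_pos_left e (by omega)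
    have hw : wt e (j.map Subtype.val) ≤ m * e := by
      rcases j with _ | j
      · exact hle
      · exact le_trans he hle
    rw [hzero _ (m * e - wt e (j.map Subtype.val))
      (hP.pderiv (Nat.sub_add_cancel hw)) (hz _)]
    exact Ideal.zero_mem _

end SmqwL

open SmqwL in
/-- [SMQW] -/
theorem smqw : S_SMQW := by
  intro n m e p hm he hp P hP hc hsm i
  rw [Ideal.radical_eq_sInf, Submodule.mem_sInf]
  rintro 𝔮 ⟨hle, hprime⟩
  by_contra hX
  let D := MvPolynomial (Option (Fin (n + 1))) ℚ ⧸ 𝔮
  let K := FractionRing D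
  let θ : MvPolynomial (Option (Fin (n + 1))) ℚ →+* K :=
    (algebraMap D K).comp (Ideal.Quotient.mk 𝔮)
  have hθ : ∀ f, θ f = 0 ↔ f ∈ 𝔮 := by
    intro f
    show algebraMap D K (Ideal.Quotient.mk 𝔮 f) = 0 ↔ _
    rw [map_eq_zero_iff _ (IsFractionRing.injective D K), Ideal.Quotient.eq_zero_iff_mem]
  have : CharZero K := by
    let g : ℚ →+* K := θ.comp C
    exact charZero_of_injective_ringHom g.injective
  have hev : ∀ R : MvPolynomial (Option (Fin (n + 1))) ℤ,
      eval₂ (Int.castRingHom K) (fun j => θ (X j)) R = θ (map (Int.castRingHom ℚ) R) := by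
    intro R
    have h1 : (eval₂Hom (Int.castRingHom K) (fun j => θ (X j)))
        = θ.comp (map (Int.castRingHom ℚ)) := by
      apply MvPolynomial.ringHom_ext
      · intro z
        simp
      · intro j
        simp
    exact congrArg (fun g => g R) h1
  obtain ⟨s, Q, hQ, hC, hdeh, hpd⟩ := key K hm he hp P hP hc (fun j => θ (X j)) i
    (fun h => hX ((hθ _).mp h)) (fun j => by
      rw [hev, hθ, ← pderiv_map]
      exact hle (Ideal.subset_span ⟨j, rfl⟩))
  obtain ⟨j, hj⟩ := hsm s Q hQ hC hdeh
  exact hj (hpd j)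

end Pool.Agent.Helper21K9.WO
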