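import Pool.Agent.Helper21K9.WO.Stm
import Pool.Agent.Helper21K9.OD.Sm

/-! Smooth coverings over the prime fields (helper71): `w ^ m + F(x)` with a smooth form `F` if `p` does
not divide `m`, and `w ^ m + w x_0 ^ ((m - 1) e) + ∑ x_j ^ (d - 1) x_(j + 1)` otherwise. -/

set_option autoImplicit false

open MvPolynomial

namespace Pool.Agent.Helper21K9.WO

open Pool.Agent.R187.WC Pool.Agent.Helper21K9.SV Pool.Agent.Helper21K9.OD Pool.Agent.TH214.RM
  Pool.Agent.H918R2.Quad

namespace SmwL

/-- the linear part -/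
noncomputable def L {n m e : ℕ} (a : MonW n m e → ℤ) : MvPolynomial (Option (Fin (n + 1))) ℤ :=
  ∑ i : MonW n m e, C (a i) * (X none ^ (i.1 : ℕ) * rename some (monomial i.2.1 1))

theorem wform_eq {n m e : ℕ} (a : MonW n m e → ℤ) : wform a = X none ^ m + L a := rfl

theorem L_add {n m e : ℕ} (a b : MonW n m e → ℤ) : L (fun i => a i + b i) = L a + L b := by
  unfold L
  rw [← Finset.sum_add_distrib]
  refine Finset.sum_congr rfl fun i _ => ?_
  rw [map_add]
  ring

theorem L_mul {n m e : ℕ} (c : ℤ) (b : MonW n m e → ℤ) : L (fun i => c * b i) = C c * L b := by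
  unfold L
  rw [Finset.mul_sum]
  refine Finset.sum_congr rfl fun i _ => ?_
  rw [map_mul]
  ring

theorem L_sum {n m e : ℕ} {κ : Type} (S : Finset κ) (b : κ → MonW n m e → ℤ) :
    L (fun i => ∑ k ∈ S, b k i) = ∑ k ∈ S, L (b k) := by
  unfold L
  rw [Finset.sum_comm]
  refine Finset.sum_congr rfl fun i _ => ?_
  rw [map_sum, Finset.sum_mul]

theorem L_single {n m e : ℕ} (i : MonW n m e) :
    L (Pi.single i 1) = X none ^ (i.1 : ℕ) * rename some (monomial i.2.1 1) := by
  classical
  unfold L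
  rw [Finset.sum_eq_single i]
  · rw [Pi.single_eq_same]
    simp
  · intro j _ hj
    rw [Pi.single_eq_of_ne hj]
    simp
  · intro h
    exact absurd (Finset.mem_univ _) h

theorem wform_whom {n m e : ℕ} (a : MonW n m e → ℤ) :
    (wform a).IsWeightedHomogeneous (wt e) (m * e) := by
  classical
  rw [wform_eq]
  refine IsWeightedHomogeneous.add ?_ ?_
  · exact (isWeightedHomogeneous_X ℤ (wt (ι := Fin (n + 1)) e) none).pow m
  · unfold L
    refine IsWeightedHomogeneous.sum _ _ _ fun i _ => ?_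
    have h1 : (X none ^ (i.1 : ℕ) * rename some (monomial i.2.1 (1 : ℤ)) :
        MvPolynomial (Option (Fin (n + 1))) ℤ).IsWeightedHomogeneous (wt e) (m * e) := by
      have h2 := (isWeightedHomogeneous_X ℤ (wt (ι := Fin (n + 1)) e) none).pow (i.1 : ℕ)
      have h3 : (rename some (monomial i.2.1 (1 : ℤ)) :
          MvPolynomial (Option (Fin (n + 1))) ℤ).IsWeightedHomogeneous (wt e) ((m - (i.1 : ℕ)) * e) := by
        rw [rename_monomial]
        refine isWeightedHomogeneous_monomial _ _ _ ?_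
        rw [weight_eq]
        have h4 : (Finsupp.mapDomain some i.2.1) none = 0 :=
          Finsupp.mapDomain_of_notMem_range _ _ (by simp)
        have h5 : ∀ j, (Finsupp.mapDomain some i.2.1) (some j) = i.2.1 j := fun j =>
          Finsupp.mapDomain_apply (Option.some_injective _) i.2.1 j
        rw [h4, zero_mul, zero_add, Finset.sum_congr rfl fun j _ => h5 j]
        exact (Finset.mem_finsuppAntidiag.1 i.2.2).1
      have h6 := h2.mul h3
      have h7 : (i.1 : ℕ) • wt (ι := Fin (n + 1)) e none + (m - (i.1 : ℕ)) * e = m * e := by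
        rw [wt_none, smul_eq_mul, ← Nat.add_mul]
        congr 1
        have := i.1.2
        omega
      rwa [h7] at h6
    have h2 := (isWeightedHomogeneous_C (wt (ι := Fin (n + 1)) e) (a i)).mul h1
    rwa [zero_add] at h2

/-- it suffices to consider one covering modulo `p` -/
theorem transferW {n m e p : ℕ} (r : MonW n m e → ℤ)
    (h : ∀ (s : Fin (n + 1)) (Q : Ideal (MvPolynomial (Option {j // j ≠ s}) ℤ)), Q.IsPrime →
      (∀ z : ℤ, C z ∈ Q ↔ (p : ℤ) ∣ z) → dehW s (wform r) ∈ Q →
      (∀ j, dehW s (pderiv j (wform r)) ∈ Q) → False) :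
    ∀ a : MonW n m e → ℤ, (∀ i, (p : ℤ) ∣ a i - r i) →
    ∀ (s : Fin (n + 1)) (Q : Ideal (MvPolynomial (Option {j // j ≠ s}) ℤ)),
    Q.IsPrime → (∀ z : ℤ, C z ∈ Q ↔ (p : ℤ) ∣ z) → dehW s (wform a) ∈ Q →
    ∃ j, pderiv j (dehW s (wform a)) ∉ Q := by
  intro a ha s Q hQ hCQ hdeh
  by_contra hcon
  push Not at hcon
  choose c hc using ha
  have hform : wform a = wform r + C (p : ℤ) * L c := by
    have h1 : a = fun i : MonW n m e => r i + (p : ℤ) * c i := by
      funext i
      have h1 := hc i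
      linarith
    rw [wform_eq, wform_eq, ← L_mul, add_assoc, ← L_add, h1]
  have hpQ : (C (p : ℤ) : MvPolynomial (Option {j // j ≠ s}) ℤ) ∈ Q := (hCQ _).2 dvd_rfl
  have hall := all_pderiv_memW e (wform a) (m * e) (wform_whom a) s Q hdeh hcon
  have hmul : ∀ G G' : MvPolynomial (Option (Fin (n + 1))) ℤ, dehW s (G * G') = dehW s G * dehW s G' :=
    fun G G' => map_mul _ _ _
  have hadd : ∀ G G' : MvPolynomial (Option (Fin (n + 1))) ℤ, dehW s (G + G') = dehW s G + dehW s G' :=
    fun G G' => map_add _ _ _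
  have hC : ∀ G : MvPolynomial (Option (Fin (n + 1))) ℤ, dehW s (C (p : ℤ) * G) ∈ Q := by
    intro G
    rw [hmul]
    refine Ideal.mul_mem_right _ _ ?_
    have : dehW s (C (p : ℤ) : MvPolynomial (Option (Fin (n + 1))) ℤ) = C (p : ℤ) := by
      unfold dehW
      rw [aeval_C]
      rfl
    rw [this]
    exact hpQ
  refine h s Q hQ hCQ ?_ ?_
  · rw [hform, hadd] at hdeh
    exact (Submodule.add_mem_iff_left Q (hC _)).1 hdeh
  · intro j
    have h2 := hall j
    rw [hform, map_add, pderiv_C_mul, hadd] at h2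
    exact (Submodule.add_mem_iff_left Q (hC _)).1 h2

/-- the chart of a form in the variables `x` -/
theorem dehW_rename {n : ℕ} (s : Fin (n + 2)) (F : MvPolynomial (Fin (n + 2)) ℤ) :
    dehW s (rename some F) = rename some (deh s F) := by
  unfold dehW deh
  rw [aeval_rename]
  have h1 : (rename some : MvPolynomial {j // j ≠ s} ℤ →ₐ[ℤ] MvPolynomial (Option {j // j ≠ s}) ℤ)
      (aeval (tau s) F) = aeval (fun j => rename some (tau s j : MvPolynomial {j // j ≠ s} ℤ)) F := by
    rw [← AlgHom.comp_apply, comp_aeval]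
  rw [h1]
  congr 2
  funext j
  show tauW s (some j) = rename some (tau s j)
  unfold tauW tau
  by_cases hj : j = s
  · simp [hj]
  · simp [hj]

theorem case_one {n m e p : ℕ} (hm : 2 ≤ m) (hme : 3 ≤ m * e) (hp : p.Prime) (hpm : ¬ (p : ℤ) ∣ m) :
    ∃ r : MonW (n + 1) m e → ℤ, ∀ (s : Fin (n + 1 + 1))
      (Q : Ideal (MvPolynomial (Option {j // j ≠ s}) ℤ)), Q.IsPrime →
      (∀ z : ℤ, C z ∈ Q ↔ (p : ℤ) ∣ z) → dehW s (wform r) ∈ Q →
      (∀ j, dehW s (pderiv j (wform r)) ∈ Q) → False := by
  classical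
  obtain ⟨r', hr'⟩ := sm n (m * e) p hme hp
  refine ⟨fun i => if (i.1 : ℕ) = 0 then
    (if h : i.2.1 ∈ Finset.finsuppAntidiag (Finset.univ : Finset (Fin (n + 2))) (m * e) then
      r' ⟨i.2.1, h⟩ else 0) else 0, ?_⟩
  intro s Q hQ hCQ hdeh hall
  obtain ⟨r, hr⟩ : ∃ r : MonW (n + 1) m e → ℤ, r = fun i => if (i.1 : ℕ) = 0 then
    (if h : i.2.1 ∈ Finset.finsuppAntidiag (Finset.univ : Finset (Fin (n + 2))) (m * e) then
      r' ⟨i.2.1, h⟩ else 0) else 0 := ⟨_, rfl⟩
  rw [← hr] at hdeh hall
  have hL : L r = rename some (form r') := by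
    unfold L
    rw [Fintype.sum_sigma, Finset.sum_eq_single (⟨0, by omega⟩ : Fin m)]
    · unfold form
      rw [map_sum]
      refine Finset.sum_congr rfl fun β _ => ?_
      rw [hr]
      simp only [if_true, pow_zero, one_mul]
      have h1 : (β.1 : Fin (n + 2) →₀ ℕ) ∈ Finset.finsuppAntidiag
          (Finset.univ : Finset (Fin (n + 2))) (m * e) := β.2
      rw [dif_pos h1, rename_monomial, rename_monomial, C_mul_monomial, mul_one]
      rfl
    · intro a _ ha
      refine Finset.sum_eq_zero fun β _ => ?_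
      rw [hr]
      have h1 : ¬ (a : ℕ) = 0 := fun h => ha (Fin.ext h)
      simp only [if_neg h1, map_zero, zero_mul]
    · intro h
      exact absurd (Finset.mem_univ _) h
  have hw : wform r = X none ^ m + rename some (form r') := by rw [wform_eq, hL]
  have hadd : ∀ G G' : MvPolynomial (Option (Fin (n + 1 + 1))) ℤ, dehW s (G + G') = dehW s G + dehW s G' :=
    fun G G' => map_add _ _ _
  have hmul : ∀ G G' : MvPolynomial (Option (Fin (n + 1 + 1))) ℤ, dehW s (G * G') = dehW s G * dehW s G' :=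
    fun G G' => map_mul _ _ _
  have hpow : ∀ (G : MvPolynomial (Option (Fin (n + 1 + 1))) ℤ) (k : ℕ), dehW s (G ^ k) = dehW s G ^ k :=
    fun G k => map_pow _ _ _
  have hX : dehW s (X none : MvPolynomial (Option (Fin (n + 1 + 1))) ℤ) = X none := by
    unfold dehW
    rw [aeval_X]
    rfl
  have hC : ∀ z : ℤ, dehW s (C z : MvPolynomial (Option (Fin (n + 1 + 1))) ℤ) = C z := by
    intro z
    unfold dehW
    rw [aeval_C]
    rfl
  -- the first variable
  have h0 : (X none : MvPolynomial (Option {j // j ≠ s}) ℤ) ∈ Q := by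
    have h1 := hall none
    have h2 : pderiv none (rename some (form r') : MvPolynomial (Option (Fin (n + 1 + 1))) ℤ) = 0 := by
      apply pderiv_eq_zero_of_notMem_vars
      intro h
      have h3 := vars_rename (some : Fin (n + 2) → Option (Fin (n + 2))) (form r') h
      simp at h3
    rw [hw, map_add, h2, add_zero, Derivation.leibniz_pow, pderiv_X_self] at h1
    have h3 : (m • (X none : MvPolynomial (Option (Fin (n + 1 + 1))) ℤ) ^ (m - 1) •
        (1 : MvPolynomial (Option (Fin (n + 1 + 1))) ℤ)) = C (m : ℤ) * X none ^ (m - 1) := by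
      simp
    rw [h3, hmul, hpow, hX, hC] at h1
    rcases hQ.mem_or_mem h1 with h4 | h4
    · exact absurd ((hCQ _).1 h4) hpm
    · exact hQ.mem_of_pow_mem _ h4
  -- the chart
  have hdw : dehW s (wform r) = X none ^ m + rename some (deh s (form r')) := by
    rw [hw, hadd, hpow, hX, dehW_rename]
  set ρ : MvPolynomial {j // j ≠ s} ℤ →+* MvPolynomial (Option {j // j ≠ s}) ℤ :=
    (rename some : MvPolynomial {j // j ≠ s} ℤ →ₐ[ℤ] MvPolynomial (Option {j // j ≠ s}) ℤ).toRingHom
    with hρ
  have hXm : (X none : MvPolynomial (Option {j // j ≠ s}) ℤ) ^ m ∈ Q :=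
    Ideal.pow_mem_of_mem _ h0 _ (by omega)
  have hpr : (Q.comap ρ).IsPrime := Ideal.comap_isPrime _ _
  obtain ⟨j, hj⟩ := hr' r' (fun i => by simp) s (Q.comap ρ) hpr
    (fun z => by
      rw [Ideal.mem_comap, ← hCQ]
      have : ρ (C z) = C z := by
        rw [hρ]
        exact rename_C _ _
      rw [this])
    (by
      rw [Ideal.mem_comap]
      rw [hdw] at hdeh
      exact (Submodule.add_mem_iff_right Q hXm).1 hdeh)
  apply hj
  rw [Ideal.mem_comap]
  have h1 := hall (some j.1)
  have h2 := pderiv_dehW s (some j) (wform r)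
  simp only [Option.map_some] at h2
  rw [← h2, hdw, map_add, pderiv_rename (Option.some_injective _)] at h1
  have h3 : pderiv (some j) ((X none : MvPolynomial (Option {j // j ≠ s}) ℤ) ^ m) = 0 := by
    rw [Derivation.leibniz_pow, pderiv_X_of_ne (by simp)]
    simp
  rw [h3, zero_add] at h1
  exact h1

theorem case_two {n m e p : ℕ} (hm : 2 ≤ m) (hme : 3 ≤ m * e) (hpm : (p : ℤ) ∣ m) :
    ∃ r : MonW (n + 1) m e → ℤ, ∀ (s : Fin (n + 1 + 1))
      (Q : Ideal (MvPolynomial (Option {j // j ≠ s}) ℤ)), Q.IsPrime →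
      (∀ z : ℤ, C z ∈ Q ↔ (p : ℤ) ∣ z) → dehW s (wform r) ∈ Q →
      (∀ j, dehW s (pderiv j (wform r)) ∈ Q) → False := by
  classical
  obtain ⟨N, hN⟩ : ∃ N, N = (m - 1) * e := ⟨_, rfl⟩
  obtain ⟨D, hD⟩ : ∃ D, D = m * e - 1 := ⟨_, rfl⟩
  have hD2 : 2 ≤ D := by omega
  have hN2 : 2 ≤ N := by
    rw [hN]
    obtain ⟨k, rfl⟩ := Nat.exists_eq_add_of_le hm
    have h1 : 2 + k - 1 = 1 + k := by omega
    rw [h1]
    rcases Nat.eq_zero_or_pos k with h | h
    · subst h
      omega
    · nlinarith
  -- the exponents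
  have hmem0 : (Finsupp.single (0 : Fin (n + 1 + 1)) N) ∈ Finset.finsuppAntidiag
      (Finset.univ : Finset (Fin (n + 1 + 1))) ((m - ((⟨1, by omega⟩ : Fin m) : ℕ)) * e) := by
    rw [Finset.mem_finsuppAntidiag]
    refine ⟨?_, Finset.subset_univ _⟩
    rw [← hN, Finset.sum_eq_single (0 : Fin (n + 1 + 1))]
    · simp
    · intro j _ hj
      rw [Finsupp.single_eq_of_ne hj]
    · intro h
      exact absurd (Finset.mem_univ _) h
  have hmemk : ∀ k : Fin (n + 1), (Finsupp.single k.succ D + Finsupp.single (k.succ + 1) 1 :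
      Fin (n + 1 + 1) →₀ ℕ) ∈ Finset.finsuppAntidiag
      (Finset.univ : Finset (Fin (n + 1 + 1))) ((m - ((⟨0, by omega⟩ : Fin m) : ℕ)) * e) := by
    intro k
    rw [Finset.mem_finsuppAntidiag]
    refine ⟨?_, Finset.subset_univ _⟩
    have h1 : ∀ (i : Fin (n + 1 + 1)) (c : ℕ), ∑ j, (Finsupp.single i c : Fin (n + 1 + 1) →₀ ℕ) j = c := by
      intro i c
      rw [Finset.sum_eq_single i]
      · simp
      · intro j _ hj
        rw [Finsupp.single_eq_of_ne hj]
      · intro h
        exact absurd (Finset.mem_univ _) h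
    show ∑ j, (Finsupp.single k.succ D j + Finsupp.single (k.succ + 1) 1 j) = _
    rw [Finset.sum_add_distrib, h1, h1]
    show D + 1 = (m - 0) * e
    rw [Nat.sub_zero]
    omega
  obtain ⟨i0, hi0⟩ : ∃ i0 : MonW (n + 1) m e, i0 = ⟨⟨1, by omega⟩, ⟨_, hmem0⟩⟩ := ⟨_, rfl⟩
  obtain ⟨ik, hik⟩ : ∃ ik : Fin (n + 1) → MonW (n + 1) m e, ik = fun k => ⟨⟨0, by omega⟩, ⟨_, hmemk k⟩⟩ := ⟨_, rfl⟩
  refine ⟨fun i => (Pi.single i0 1 : MonW (n + 1) m e → ℤ) i +
    ∑ k, (Pi.single (ik k) 1 : MonW (n + 1) m e → ℤ) i, ?_⟩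
  intro s Q hQ hCQ hdeh hall
  have hL : wform (fun i => (Pi.single i0 1 : MonW (n + 1) m e → ℤ) i +
      ∑ k, (Pi.single (ik k) 1 : MonW (n + 1) m e → ℤ) i) =
      X none ^ m + (X (some 0) ^ N * X none + ∑ k : Fin (n + 1), X (some k.succ) ^ D * X (some (k.succ + 1))) := by
    rw [wform_eq, L_add, L_sum, L_single]
    congr 2
    · rw [hi0, rename_monomial, Finsupp.mapDomain_single]
      simp only [pow_one]
      rw [← X_pow_eq_monomial, mul_comm]
    · refine Finset.sum_congr rfl fun k _ => ?_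
      rw [L_single, hik]
      simp only [pow_zero, one_mul]
      rw [rename_monomial, Finsupp.mapDomain_add, Finsupp.mapDomain_single, Finsupp.mapDomain_single,
        X_pow_eq_monomial, X, monomial_mul, one_mul]
  rw [hL] at hdeh hall
  have hadd : ∀ G G' : MvPolynomial (Option (Fin (n + 1 + 1))) ℤ, dehW s (G + G') = dehW s G + dehW s G' :=
    fun G G' => map_add _ _ _
  have hmul : ∀ G G' : MvPolynomial (Option (Fin (n + 1 + 1))) ℤ, dehW s (G * G') = dehW s G * dehW s G' :=
    fun G G' => map_mul _ _ _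
  have hpow : ∀ (G : MvPolynomial (Option (Fin (n + 1 + 1))) ℤ) (k : ℕ), dehW s (G ^ k) = dehW s G ^ k :=
    fun G k => map_pow _ _ _
  have hsum : ∀ g : Fin (n + 1) → MvPolynomial (Option (Fin (n + 1 + 1))) ℤ,
      dehW s (∑ i, g i) = ∑ i, dehW s (g i) := fun g => map_sum _ _ _
  have hzero : dehW s (0 : MvPolynomial (Option (Fin (n + 1 + 1))) ℤ) = 0 := map_zero _
  have hone : dehW s (1 : MvPolynomial (Option (Fin (n + 1 + 1))) ℤ) = 1 := map_one _
  have hX : ∀ o, dehW s (X o : MvPolynomial (Option (Fin (n + 1 + 1))) ℤ) = tauW s o := by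
    intro o
    unfold dehW
    rw [aeval_X]
  have hC : ∀ z : ℤ, dehW s (C z : MvPolynomial (Option (Fin (n + 1 + 1))) ℤ) = C z := by
    intro z
    unfold dehW
    rw [aeval_C]
    rfl
  have hterm : ∀ (j a b : Option (Fin (n + 1 + 1))) (k : ℕ),
      pderiv j (X a ^ k * X b : MvPolynomial (Option (Fin (n + 1 + 1))) ℤ) =
        X a ^ k * pderiv j (X b) + X b * (C (k : ℤ) * (X a ^ (k - 1) * pderiv j (X a))) := by
    intro j a b k
    rw [Derivation.leibniz, Derivation.leibniz_pow]
    simp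
  have hpw : ∀ (j : Option (Fin (n + 1 + 1))),
      dehW s (pderiv j (X none ^ m : MvPolynomial (Option (Fin (n + 1 + 1))) ℤ)) ∈ Q := by
    intro j
    have h1 : pderiv j (X none ^ m : MvPolynomial (Option (Fin (n + 1 + 1))) ℤ) =
        C (m : ℤ) * (X none ^ (m - 1) * pderiv j (X none)) := by
      rw [Derivation.leibniz_pow]
      simp
    rw [h1, hmul, hC]
    exact Ideal.mul_mem_right _ _ ((hCQ _).2 hpm)
  -- the variable `x_0`
  have h0 : (tauW s (some 0) : MvPolynomial (Option {j // j ≠ s}) ℤ) ∈ Q := by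
    have h1 := hall none
    rw [map_add, hadd] at h1
    have h2 := (Submodule.add_mem_iff_right Q (hpw none)).1 h1
    rw [map_add, map_sum, hadd, hsum] at h2
    have h3 : ∑ i : Fin (n + 1), dehW s (pderiv none
        (X (some i.succ) ^ D * X (some (i.succ + 1)) : MvPolynomial (Option (Fin (n + 1 + 1))) ℤ)) ∈ Q := by
      refine Ideal.sum_mem _ fun i _ => ?_
      rw [hterm, pderiv_X_of_ne (by simp), pderiv_X_of_ne (by simp)]
      simp only [mul_zero, add_zero]
      rw [hzero]
      exact Q.zero_mem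
    have h4 := (Submodule.add_mem_iff_left Q h3).1 h2
    rw [hterm, pderiv_X_self, pderiv_X_of_ne (by simp)] at h4
    simp only [mul_zero, add_zero, mul_one] at h4
    rw [hpow, hX] at h4
    exact hQ.mem_of_pow_mem _ h4
  -- the other variables
  have key : ∀ q : ℕ, ∀ k : Fin (n + 1), n - k.val = q →
      (tauW s (some k.succ) : MvPolynomial (Option {j // j ≠ s}) ℤ) ∈ Q := by
    intro q
    induction q using Nat.strong_induction_on with
    | _ q ih =>
      intro k hkq
      have h1 := hall (some (k.succ + 1))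
      rw [map_add, hadd] at h1
      have h2 := (Submodule.add_mem_iff_right Q (hpw (some (k.succ + 1)))).1 h1
      rw [map_add, map_sum, hadd, hsum] at h2
      have h3 : dehW s (pderiv (some (k.succ + 1))
          (X (some 0) ^ N * X none : MvPolynomial (Option (Fin (n + 1 + 1))) ℤ)) ∈ Q := by
        rw [hterm, pderiv_X_of_ne (by simp), mul_zero, zero_add, hmul, hmul, hmul, hpow, hX, hX]
        refine Ideal.mul_mem_left _ _ (Ideal.mul_mem_left _ _ (Ideal.mul_mem_right _ _ ?_))
        exact Ideal.pow_mem_of_mem _ h0 _ (by omega)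
      have h4 := (Submodule.add_mem_iff_right Q h3).1 h2
      rw [Finset.sum_eq_add_sum_sdiff_singleton_of_mem (Finset.mem_univ k)] at h4
      have h5 : ∑ i ∈ Finset.univ \ {k}, dehW s (pderiv (some (k.succ + 1))
          (X (some i.succ) ^ D * X (some (i.succ + 1)) : MvPolynomial (Option (Fin (n + 1 + 1))) ℤ)) ∈ Q := by
        refine Ideal.sum_mem _ fun i hi => ?_
        have hne : i ≠ k := by
          intro h
          rw [h] at hi
          simp at hi
        have hne' : (some (i.succ + 1) : Option (Fin (n + 1 + 1))) ≠ some (k.succ + 1) := by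
          intro h
          have h6 := add_right_cancel (Option.some.inj h)
          exact hne (Fin.succ_injective _ h6)
        rw [hterm, pderiv_X_of_ne hne', mul_zero, zero_add]
        by_cases h7 : i.succ = k.succ + 1
        · have h8 : i.val = k.val + 1 := by
            have h9 := congrArg Fin.val h7
            rw [Fin.val_add] at h9
            simp only [Fin.val_succ, Fin.val_one] at h9
            have h10 := k.2
            rcases Nat.lt_or_ge (k.val + 1 + 1) (n + 1 + 1) with h11 | h11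
            · rw [Nat.mod_eq_of_lt h11] at h9
              omega
            · have h12 : k.val + 1 + 1 = n + 1 + 1 := by omega
              rw [h12, Nat.mod_self] at h9
              omega
          have h9 := i.2
          have h13 := ih (n - i.val) (by omega) i rfl
          rw [hmul, hmul, hmul, hpow, hX (some i.succ)]
          refine Ideal.mul_mem_left _ _ (Ideal.mul_mem_left _ _ (Ideal.mul_mem_right _ _ ?_))
          exact Ideal.pow_mem_of_mem _ h13 _ (by omega)
        · have h8 : (some i.succ : Option (Fin (n + 1 + 1))) ≠ some (k.succ + 1) := fun h =>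
            h7 (Option.some.inj h)
          rw [pderiv_X_of_ne h8]
          simp only [mul_zero]
          rw [hzero]
          exact Q.zero_mem
      have h6 := (Submodule.add_mem_iff_left Q h5).1 h4
      have h7 : (some k.succ : Option (Fin (n + 1 + 1))) ≠ some (k.succ + 1) := by
        intro h
        have h8 : k.succ = k.succ + 1 := Option.some.inj h
        have h9 : (1 : Fin (n + 1 + 1)) = 0 := by
          have := h8.symm
          exact left_eq_add.1 h8
        exact absurd h9 (by simp)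
      rw [hterm, pderiv_X_self, pderiv_X_of_ne h7] at h6
      simp only [mul_zero, add_zero, mul_one] at h6
      rw [hpow, hX] at h6
      exact hQ.mem_of_pow_mem _ h6
  have hj : ∀ j : Fin (n + 1 + 1), (tauW s (some j) : MvPolynomial (Option {j // j ≠ s}) ℤ) ∈ Q := by
    intro j
    rcases Fin.eq_zero_or_eq_succ j with rfl | ⟨i, rfl⟩
    · exact h0
    · exact key _ i rfl
  have hs := hj s
  rw [tauW_self] at hs
  exact hQ.ne_top ((Ideal.eq_top_iff_one _).2 hs)

end SmwL

open SmwL in
/-- [SMW] -/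
theorem smw : S_SMW := by
  intro n m e p hn hm _ hme hp
  obtain ⟨n', rfl⟩ : ∃ n', n = n' + 1 := ⟨n - 1, by omega⟩
  by_cases hpm : (p : ℤ) ∣ m
  · obtain ⟨r, hr⟩ := case_two (n := n') hm hme hpm
    exact ⟨r, transferW r hr⟩
  · obtain ⟨r, hr⟩ := case_one (n := n') (e := e) hm hme hp hpm
    exact ⟨r, transferW r hr⟩

end Pool.Agent.Helper21K9.WO
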