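import Pool.Agent.R187.WC.Loc
import Pool.Agent.Helper21K9.OD.Stm
import Pool.Agent.Helper21K9.SV.Stm

/-! Coverings `w ^ m + ∑_{a < m} w ^ a F_a(x) = 0` of projective spaces with integral
coefficients: statements. -/

set_option autoImplicit false

open MvPolynomial

namespace Pool.Agent.Helper21K9.WO

open Pool.Agent.R187.WC Pool.Agent.Helper21K9.SV Pool.Agent.Helper21K9.OD

/-- The exponents of the monomials `w ^ a x ^ β`, `a < m`, of weight `m e`. -/
abbrev MonW (n m e : ℕ) : Type :=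
  Σ a : Fin m, ↥(Finset.finsuppAntidiag (Finset.univ : Finset (Fin (n + 1))) ((m - (a : ℕ)) * e))

/-- The form `w ^ m + ∑ a_i w ^ i x ^ β`. -/
noncomputable def wform {R : Type} [CommRing R] {n m e : ℕ} (a : MonW n m e → R) :
    MvPolynomial (Option (Fin (n + 1))) R :=
  X none ^ m + ∑ i : MonW n m e, C (a i) * (X none ^ (i.1 : ℕ) * rename some (monomial i.2.1 1))

/-- The form with indeterminate coefficients. -/
noncomputable def gwform (n m e : ℕ) :
    MvPolynomial (Option (Fin (n + 1))) (MvPolynomial (MonW n m e) ℤ) :=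
  wform fun i => X i

/-- The ideal of the degenerate critical points in the chart `s`. -/
noncomputable def degIdealW {R : Type} [CommRing R] {n : ℕ} (s : Fin (n + 1))
    (P : MvPolynomial (Option (Fin (n + 1))) R) :
    Ideal (MvPolynomial (Option {j // j ≠ s}) R) :=
  Ideal.span (insert (dehW s P) (insert (hess (dehW s P)).det
    (Set.range fun j => pderiv j (dehW s P))))

/-- [UNIW] Two coprime polynomials in the coefficients which vanish at the forms with a degenerate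
singular point in the chart `s`. -/
def S_UNIW : Prop :=
  ∀ (n m e : ℕ), 2 ≤ m → 1 ≤ e → ∀ s : Fin (n + 1), ∃ Φ Ψ : MvPolynomial (MonW n m e) ℤ,
    Cop Φ Ψ ∧ C Φ ∈ degIdealW s (gwform n m e) ∧ C Ψ ∈ degIdealW s (gwform n m e)

/-- [SMW] Smooth coverings over the prime fields. -/
def S_SMW : Prop :=
  ∀ (n m e p : ℕ), 1 ≤ n → 2 ≤ m → 1 ≤ e → 3 ≤ m * e → p.Prime → ∃ r : MonW n m e → ℤ,
    ∀ a : MonW n m e → ℤ, (∀ i, (p : ℤ) ∣ a i - r i) →
    ∀ (s : Fin (n + 1)) (Q : Ideal (MvPolynomial (Option {j // j ≠ s}) ℤ)),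
    Q.IsPrime → (∀ z : ℤ, C z ∈ Q ↔ (p : ℤ) ∣ z) → dehW s (wform a) ∈ Q →
    ∃ j, pderiv j (dehW s (wform a)) ∉ Q

/-- [SMQW] A covering which is smooth modulo a prime is smooth over the rational numbers. -/
def S_SMQW : Prop :=
  ∀ (n m e p : ℕ), 1 ≤ m → 1 ≤ e → p.Prime → ∀ P : MvPolynomial (Option (Fin (n + 1))) ℤ,
    P.IsWeightedHomogeneous (wt e) (m * e) → coeff (Finsupp.single none m) P = 1 →
    (∀ (s : Fin (n + 1)) (Q : Ideal (MvPolynomial (Option {j // j ≠ s}) ℤ)),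
      Q.IsPrime → (∀ z : ℤ, C z ∈ Q ↔ (p : ℤ) ∣ z) → dehW s P ∈ Q →
      ∃ j, pderiv j (dehW s P) ∉ Q) →
    SmoothW (map (Int.castRingHom ℚ) P)

/-- The fibre of the covering over `p` has only nondegenerate quadratic singularities. -/
def GoodAtW {n : ℕ} (P : MvPolynomial (Option (Fin (n + 1))) ℤ) (p : ℕ) : Prop :=
  ∀ (s : Fin (n + 1)) (Q : Ideal (MvPolynomial (Option {j // j ≠ s}) ℤ)), Q.IsPrime →
    (∀ z : ℤ, C z ∈ Q ↔ (p : ℤ) ∣ z) → dehW s P ∈ Q →
    (∃ j, pderiv j (dehW s P) ∉ Q) ∨ (hess (dehW s P)).det ∉ Q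

/-- The good coverings. -/
def goodSetW (n m e H : ℕ) : Set (MonW n m e → ℤ) :=
  {a | a ∈ box (MonW n m e) H ∧ SmoothW (map (Int.castRingHom ℚ) (wform a)) ∧
    ∀ p : ℕ, p.Prime → GoodAtW (wform a) p}

/-- [DENSW] A positive proportion is good (theorem `densw : S_EK → S_UNIW → S_SMW → S_SMQW →
S_DENSW`). -/
def S_DENSW : Prop :=
  ∀ (n m e : ℕ), 1 ≤ n → 2 ≤ m → 1 ≤ e → 3 ≤ m * e →
    ∃ c : ℕ, 0 < c ∧ ∃ H₀ : ℕ, ∀ H : ℕ, H₀ ≤ H →
      (2 * H + 1) ^ Fintype.card (MonW n m e) ≤ c * (goodSetW n m e H).ncard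

end Pool.Agent.Helper21K9.WO
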