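import Pool.Agent.Helper21K9.WO.UniwB
import Pool.Agent.Helper21K9.WO.Densw

/-! [UNIW] Two coprime polynomials in the coefficients of a covering which vanish at the coverings
with a degenerate singular point in a chart. -/

set_option autoImplicit false

open MvPolynomial

namespace Pool.Agent.Helper21K9.WO

namespace UniwL

open Pool.Agent.R187.WC Pool.Agent.Helper21K9.SV Pool.Agent.Helper21K9.OD
open Finsupp (single single_eq_same single_eq_of_ne)

variable {n m e : ℕ} (s : Fin (n + 1))

/-- the monomials of degree at least 2 in the chart -/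
abbrev Big (n m e : ℕ) (s : Fin (n + 1)) : Type :=
  {i : MonW n m e // i.2.1 s + 2 ≤ (m - (i.1 : ℕ)) * e + (i.1 : ℕ)}

theorem mem_mon {N : ℕ} {b : Fin (n + 1) →₀ ℕ} :
    b ∈ Finset.finsuppAntidiag (Finset.univ : Finset (Fin (n + 1))) N ↔ ∑ i, b i = N := by
  rw [Finset.mem_finsuppAntidiag]
  exact ⟨fun h => h.1, fun h => ⟨h, Finset.subset_univ _⟩⟩

theorem sum_single (i : Fin (n + 1)) (k : ℕ) : ∑ x, (single i k : Fin (n + 1) →₀ ℕ) x = k := by
  rw [Finset.sum_eq_single i]
  · exact single_eq_same
  · intro b _ hb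
    exact single_eq_of_ne hb
  · intro h
    exact absurd (Finset.mem_univ _) h

/-- the monomials `w ^ a x_s ^ ((m - a) e - k) x_j ^ k` -/
noncomputable def mw (a : Fin m) (j : Fin (n + 1)) (k : ℕ) (hk : k ≤ (m - (a : ℕ)) * e) :
    MonW n m e :=
  ⟨a, ⟨single s ((m - (a : ℕ)) * e - k) + single j k, mem_mon.2 (by
    simp only [Finsupp.add_apply, Finset.sum_add_distrib, sum_single]
    omega)⟩⟩

theorem eq_of_le {b b' : Fin (n + 1) →₀ ℕ} (h : ∀ i, b i ≤ b' i) (hs : ∑ i, b i = ∑ i, b' i) :
    b = b' := by
  ext i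
  exact (Finset.sum_eq_sum_iff_of_le fun i _ => h i).1 hs i (Finset.mem_univ i)

theorem mon_ext {i i' : MonW n m e} (h1 : i.1 = i'.1) (h2 : i.2.1 = i'.2.1) : i = i' := by
  obtain ⟨a, b, hb⟩ := i
  obtain ⟨a', b', hb'⟩ := i'
  dsimp only at h1 h2
  subst h1
  subst h2
  rfl

variable (hm : 2 ≤ m) (he : 1 ≤ e)

include hm he in
theorem one_le : 1 ≤ (m - ((⟨0, by omega⟩ : Fin m) : ℕ)) * e := by
  have h1 : 1 ≤ m - ((⟨0, by omega⟩ : Fin m) : ℕ) := by
    simp only
    omega
  exact Nat.one_le_iff_ne_zero.2 (Nat.mul_ne_zero (by omega) (by omega))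

/-- all the monomials -/
noncomputable def enum : Option (Big n m e s ⊕ Option {j // j ≠ s}) → MonW n m e
  | none => mw s ⟨0, by omega⟩ s 0 (Nat.zero_le _)
  | some (Sum.inl b) => b.1
  | some (Sum.inr none) => mw s ⟨1, by omega⟩ s 0 (Nat.zero_le _)
  | some (Sum.inr (some j)) => mw s ⟨0, by omega⟩ j.1 1 (one_le hm he)

/-- the degree in the chart -/
def dg (i : MonW n m e) : ℕ := (m - (i.1 : ℕ)) * e + (i.1 : ℕ) - i.2.1 s

theorem le_dg (i : MonW n m e) : i.2.1 s ≤ (m - (i.1 : ℕ)) * e := by
  have h1 := mem_mon.1 i.2.2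
  exact (Finset.single_le_sum (f := fun j => i.2.1 j) (fun _ _ => Nat.zero_le _)
    (Finset.mem_univ s)).trans h1.le

theorem mw_s0 (a : Fin m) : (mw (e := e) s a s 0 (Nat.zero_le _)).2.1 s =
    (m - (a : ℕ)) * e := by
  simp only [mw, Finsupp.add_apply, single_eq_same]
  omega

theorem mw_s (a : Fin m) (j : {j // j ≠ s}) (k : ℕ) (hk : k ≤ (m - (a : ℕ)) * e) :
    (mw s a j.1 k hk).2.1 s = (m - (a : ℕ)) * e - k := by
  simp only [mw, Finsupp.add_apply, single_eq_same, single_eq_of_ne (Ne.symm j.2), add_zero]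

theorem mw_j (a : Fin m) (j : {j // j ≠ s}) (k : ℕ) (hk : k ≤ (m - (a : ℕ)) * e) :
    (mw s a j.1 k hk).2.1 j.1 = k := by
  simp only [mw, Finsupp.add_apply, single_eq_same, single_eq_of_ne j.2, zero_add]

theorem dg_none : dg s (enum s hm he none) = 0 := by
  simp only [dg, enum]
  rw [mw_s0]
  simp only [mw]
  omega

theorem dg_w : dg s (enum s hm he (some (Sum.inr none))) = 1 := by
  simp only [dg, enum]
  rw [mw_s0]
  simp only [mw]
  omega

theorem dg_x (j : {j // j ≠ s}) : dg s (enum s hm he (some (Sum.inr (some j)))) = 1 := by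
  have h1 := one_le hm he
  simp only [dg, enum]
  rw [mw_s]
  simp only [mw] at h1 ⊢
  omega

theorem dg_big (b : Big n m e s) : 2 ≤ dg s (enum s hm he (some (Sum.inl b))) := by
  have := b.2
  simp only [dg, enum]
  omega

theorem enum_bij : Function.Bijective (enum s hm he) := by
  constructor
  · intro o o' h
    have h1 : dg s (enum s hm he o) = dg s (enum s hm he o') := by rw [h]
    rcases o with _ | b | _ | j <;> rcases o' with _ | b' | _ | j'
    · rfl
    · have := dg_big s hm he b'
      rw [dg_none] at h1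
      omega
    · rw [dg_none, dg_w] at h1
      omega
    · rw [dg_none, dg_x] at h1
      omega
    · have := dg_big s hm he b
      rw [dg_none] at h1
      omega
    · simp only [enum] at h
      rw [Subtype.ext h]
    · have := dg_big s hm he b
      rw [dg_w] at h1
      omega
    · have := dg_big s hm he b
      rw [dg_x] at h1
      omega
    · rw [dg_none, dg_w] at h1
      omega
    · have := dg_big s hm he b'
      rw [dg_w] at h1
      omega
    · rfl
    · exfalso
      have h2 := congrArg (fun i : MonW n m e => (i.1 : ℕ)) h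
      simp [enum, mw] at h2
    · rw [dg_none, dg_x] at h1
      omega
    · have := dg_big s hm he b'
      rw [dg_x] at h1
      omega
    · exfalso
      have h2 := congrArg (fun i : MonW n m e => (i.1 : ℕ)) h
      simp [enum, mw] at h2
    · simp only [enum] at h
      have h2 := congrArg (fun i : MonW n m e => i.2.1 j.1) h
      simp only [mw_j] at h2
      have h3 : j.1 = j'.1 := by
        by_contra hne
        simp only [mw, Finsupp.add_apply, single_eq_of_ne j.2, single_eq_of_ne hne] at h2
        omega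
      rw [Subtype.ext h3]
  · intro i
    have hi := mem_mon.1 i.2.2
    have hle := le_dg s i
    have hlt := i.1.2
    by_cases h1 : i.2.1 s + 2 ≤ (m - (i.1 : ℕ)) * e + (i.1 : ℕ)
    · exact ⟨some (Sum.inl ⟨i, h1⟩), rfl⟩
    · by_cases h2 : i.2.1 s = (m - (i.1 : ℕ)) * e
      · -- a power of `x_s`
        have h3 : i.2.1 = single s ((m - (i.1 : ℕ)) * e) := by
          symm
          refine eq_of_le (fun k => ?_) ?_
          · by_cases hk : k = s
            · subst hk
              rw [h2]
              exact single_eq_same.le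
            · exact (single_eq_of_ne hk).trans_le (Nat.zero_le _)
          · rw [hi]
            exact sum_single s _
        have h4 : (i.1 : ℕ) = 0 ∨ (i.1 : ℕ) = 1 := by omega
        rcases h4 with h4 | h4
        · refine ⟨none, mon_ext (Fin.ext h4.symm) ?_⟩
          rw [h3]
          simp only [enum, mw, h4]
          ext k
          simp
        · refine ⟨some (Sum.inr none), mon_ext (Fin.ext h4.symm) ?_⟩
          rw [h3]
          simp only [enum, mw, h4]
          ext k
          simp
      · have h4 : (i.1 : ℕ) = 0 := by omega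
        have h3 : ∃ j, j ≠ s ∧ i.2.1 j ≠ 0 := by
          by_contra hcon
          push Not at hcon
          rw [Finset.sum_eq_single s (fun b _ hb => hcon b hb)
            (fun h => absurd (Finset.mem_univ _) h)] at hi
          exact h2 hi
        obtain ⟨j, hj, hj0⟩ := h3
        refine ⟨some (Sum.inr (some ⟨j, hj⟩)), mon_ext (Fin.ext h4.symm) ?_⟩
        refine eq_of_le (fun k => ?_) ?_
        · simp only [enum, mw, Finsupp.add_apply]
          by_cases hk : k = s
          · subst hk
            rw [single_eq_same, single_eq_of_ne (Ne.symm hj)]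
            have h5 : (m - (i.1 : ℕ)) * e = (m - 0) * e := by rw [h4]
            omega
          · rw [single_eq_of_ne hk]
            by_cases hk' : k = j
            · subst hk'
              rw [single_eq_same]
              omega
            · rw [single_eq_of_ne hk']
              omega
        · rw [hi]
          have h5 := mem_mon.1 (enum s hm he (some (Sum.inr (some ⟨j, hj⟩)))).2.2
          rw [h5]
          simp only [enum, mw, h4]

/-- the enumeration -/
noncomputable def ee : Option (Big n m e s ⊕ Option {j // j ≠ s}) ≃ MonW n m e :=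
  Equiv.ofBijective _ (enum_bij s hm he)

/-- the monomials in the chart -/
noncomputable def mo (i : MonW n m e) : MvPolynomial (Option {j // j ≠ s}) ℤ :=
  dehW s (X none ^ (i.1 : ℕ) * rename some (monomial i.2.1 1))

theorem dehW_mul {R : Type} [CommRing R] (P Q : MvPolynomial (Option (Fin (n + 1))) R) :
    dehW s (P * Q) = dehW s P * dehW s Q := map_mul _ _ _

theorem dehW_pow {R : Type} [CommRing R] (P : MvPolynomial (Option (Fin (n + 1))) R) (k : ℕ) :
    dehW s (P ^ k) = dehW s P ^ k := map_pow _ _ _

theorem dehW_none {R : Type} [CommRing R] :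
    dehW s (X none : MvPolynomial (Option (Fin (n + 1))) R) = X none := by
  rw [dehW, aeval_X, tauW]

theorem dehW_self {R : Type} [CommRing R] :
    dehW s (X (some s) : MvPolynomial (Option (Fin (n + 1))) R) = 1 := by
  rw [dehW, aeval_X]
  exact tauW_self s

theorem dehW_some {R : Type} [CommRing R] (j : {j // j ≠ s}) :
    dehW s (X (some j.1) : MvPolynomial (Option (Fin (n + 1))) R) = X (some j) := by
  rw [dehW, aeval_X, tauW, dif_neg j.2]

theorem mo_mw (a : Fin m) (j : Fin (n + 1)) (k : ℕ) (hk : k ≤ (m - (a : ℕ)) * e) :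
    mo s (mw s a j k hk) = X none ^ (a : ℕ) * dehW s (X (some j)) ^ k := by
  have h1 : (rename some (monomial (mw s a j k hk).2.1 (1 : ℤ)) :
      MvPolynomial (Option (Fin (n + 1))) ℤ) =
      X (some s) ^ ((m - (a : ℕ)) * e - k) * X (some j) ^ k := by
    have h2 : (monomial (mw s a j k hk).2.1 (1 : ℤ)) =
        X s ^ ((m - (a : ℕ)) * e - k) * X j ^ k := by
      rw [X_pow_eq_monomial, X_pow_eq_monomial, monomial_mul, one_mul]
      rfl
    rw [h2, map_mul, map_pow, map_pow, rename_X, rename_X]
  rw [mo, h1, dehW_mul, dehW_mul, dehW_pow, dehW_pow, dehW_pow, dehW_none, dehW_self, one_pow,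
    one_mul]
  rfl

theorem dehW_gwform : dehW s (gwform n m e) =
    X none ^ m + ∑ i, C (X i) * map C (mo s i) := by
  rw [gwform, wform, dehW, map_add, map_sum, ← dehW, dehW_pow, dehW_none]
  congr 1
  refine Finset.sum_congr rfl fun i _ => ?_
  rw [map_mul, aeval_C, algebraMap_eq, mo, map_dehW, ← dehW]
  congr 2
  rw [map_mul, map_pow, map_X, mono_eq_rename]
  where
  mono_eq_rename {i : MonW n m e} : (rename some (monomial i.2.1 1) :
      MvPolynomial (Option (Fin (n + 1))) (MvPolynomial (MonW n m e) ℤ)) =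
      map C (rename some (monomial i.2.1 (1 : ℤ))) := by
    rw [rename_monomial, rename_monomial, map_monomial, C_1]

theorem dehW_gwform_eq :
    dehW s (gwform n m e) =
      ff (ee s hm he) (X none ^ m) (fun b : Big n m e s => mo s b.1) := by
  have hnone : mo s (ee s hm he none) = 1 := by
    show mo s (mw s ⟨0, by omega⟩ s 0 (Nat.zero_le _)) = 1
    rw [mo_mw, pow_zero, pow_zero, one_mul]
  have hlin : ∀ j, mo s (ee s hm he (some (Sum.inr j))) = X j := by
    intro j
    rcases j with _ | j
    · show mo s (mw s ⟨1, by omega⟩ s 0 (Nat.zero_le _)) = X none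
      rw [mo_mw, pow_zero, mul_one, pow_one]
    · show mo s (mw s ⟨0, by omega⟩ j.1 1 (one_le hm he)) = X (some j)
      rw [mo_mw, pow_zero, one_mul, pow_one, dehW_some]
  rw [dehW_gwform, ff, ← (ee s hm he).sum_comp, Fintype.sum_option, Fintype.sum_sum_type]
  have h1 : C (X (ee s hm he none)) * map C (mo s (ee s hm he none)) =
      (C (X (ee s hm he none)) :
        MvPolynomial (Option {j // j ≠ s}) (MvPolynomial (MonW n m e) ℤ)) := by
    rw [hnone, map_one, mul_one]
  have h2 : ∀ j, C (X (ee s hm he (some (Sum.inr j)))) *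
      map C (mo s (ee s hm he (some (Sum.inr j)))) =
      (C (X (ee s hm he (some (Sum.inr j)))) * X j :
        MvPolynomial (Option {j // j ≠ s}) (MvPolynomial (MonW n m e) ℤ)) := by
    intro j
    rw [hlin, map_X]
  have h4 : ((rename fun b : Big n m e s => ee s hm he (some (Sum.inl b)) :
      MvPolynomial (Big n m e s) ℤ →ₐ[ℤ] MvPolynomial (MonW n m e) ℤ).toRingHom).comp
      (C : ℤ →+* MvPolynomial (Big n m e s) ℤ) = C := RingHom.ext_int _ _
  have h3 : JJ (ee s hm he) (gg (X none ^ m) fun b : Big n m e s => mo s b.1) =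
      X none ^ m + ∑ b, C (X (ee s hm he (some (Sum.inl b)))) *
        map C (mo s (ee s hm he (some (Sum.inl b)))) := by
    rw [gg, map_add, map_sum, map_pow, map_X, map_pow, JJ_X]
    congr 1
    refine Finset.sum_congr rfl fun b _ => ?_
    rw [map_mul, JJ_C, rename_X, JJ, map_map, h4]
    rfl
  rw [h1, h3]
  simp only [h2]
  ring

/-- the Hessian matrix of `w ^ m + ε w ^ 2 + ∑ x_j ^ 2` at the origin -/
theorem hess_quad {N : Type} [Fintype N] [DecidableEq N] (ε : ℤ)
    (hε : (m = 2 ∧ ε = 0) ∨ (3 ≤ m ∧ ε = 1)) :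
    (hess (X none ^ m + (C ε * X none ^ 2 + ∑ j : N, (X (some j)) ^ 2) :
      MvPolynomial (Option N) ℤ)).det ≠ 0 := by
  set P : MvPolynomial (Option N) ℤ :=
    X none ^ m + (C ε * X none ^ 2 + ∑ j : N, (X (some j)) ^ 2) with hP
  have hn : pderiv none P = C (m : ℤ) * X none ^ (m - 1) + C (2 * ε) * X none := by
    rw [hP, map_add, map_add, map_sum, pderiv_pow, pderiv_X_self, pderiv_C_mul, pderiv_pow,
      pderiv_X_self]
    have h1 : ∀ j : N, pderiv none ((X (some j) : MvPolynomial (Option N) ℤ) ^ 2) = 0 := by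
      intro j
      rw [pderiv_pow, pderiv_X_of_ne (by simp), mul_zero]
    rw [Finset.sum_congr rfl fun j _ => h1 j, Finset.sum_const_zero]
    simp only [map_mul, map_natCast, map_ofNat]
    push_cast
    ring
  have hs : ∀ j : N, pderiv (some j) P = C 2 * X (some j) := by
    intro j
    rw [hP, map_add, map_add, map_sum, pderiv_pow, pderiv_X_of_ne (by simp), pderiv_C_mul,
      pderiv_pow, pderiv_X_of_ne (by simp), Finset.sum_eq_single j]
    · rw [pderiv_pow, pderiv_X_self]
      simp
    · intro k _ hk
      rw [pderiv_pow, pderiv_X_of_ne (by simpa using hk), mul_zero]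
    · intro h
      exact absurd (Finset.mem_univ _) h
  have hc2 : constantCoeff (2 : MvPolynomial (Option N) ℤ) = 2 := map_ofNat _ 2
  have hev : (eval (0 : Option N → ℤ)).mapMatrix (hess P) = (2 : ℤ) • 1 := by
    ext1 i j
    rw [RingHom.mapMatrix_apply, Matrix.map_apply, hess, Matrix.of_apply, Matrix.smul_apply,
      Matrix.one_apply]
    rcases j with _ | j
    · rw [hn]
      rcases i with _ | i
      · rw [if_pos rfl, map_add, pderiv_C_mul, pderiv_C_mul, pderiv_pow, pderiv_X_self]
        rcases hε with ⟨h1, h2⟩ | ⟨h1, h2⟩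
        · subst h1
          subst h2
          simp [hc2]
        · subst h2
          have h3 : m - 1 - 1 ≠ 0 := by omega
          simp [h3, hc2]
      · rw [if_neg (by simp), map_add, pderiv_C_mul, pderiv_C_mul, pderiv_pow,
          pderiv_X_of_ne (by simp)]
        simp
    · rw [hs, pderiv_C_mul]
      split_ifs with h
      · subst h
        rw [pderiv_X_self]
        simp [hc2]
      · rw [pderiv_X_of_ne (Ne.symm h)]
        simp
  intro h0
  have h1 : ((eval (0 : Option N → ℤ)).mapMatrix (hess P)).det = 0 := by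
    rw [← RingHom.map_det, h0, map_zero]
  rw [hev, Matrix.det_smul, Matrix.det_one, mul_one] at h1
  exact pow_ne_zero _ two_ne_zero h1

include hm he in
theorem two_le : 2 ≤ (m - ((⟨0, by omega⟩ : Fin m) : ℕ)) * e := by
  have h1 : 2 * 1 ≤ (m - 0) * e := Nat.mul_le_mul (by omega) he
  exact h1

include hm he in
theorem det_gg : (hess (gg (X none ^ m) fun b : Big n m e s => mo s b.1)).det ≠ 0 := by
  classical
  let quad : {j // j ≠ s} → Big n m e s := fun j =>
    ⟨mw s ⟨0, by omega⟩ j.1 2 (two_le hm he), by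
      have h1 := two_le hm he
      rw [mw_s]
      simp only [mw] at h1 ⊢
      omega⟩
  have hquad : ∀ j, mo s (quad j).1 = X (some j) ^ 2 := by
    intro j
    show mo s (mw s ⟨0, by omega⟩ j.1 2 (two_le hm he)) = _
    rw [mo_mw, pow_zero, one_mul, dehW_some]
  have hsum : ∑ b : Big n m e s, C (∑ j, if b = quad j then (1 : ℤ) else 0) * mo s b.1 =
      ∑ j : {j // j ≠ s}, (X (some j) : MvPolynomial (Option {j // j ≠ s}) ℤ) ^ 2 := by
    simp only [map_sum, Finset.sum_mul]
    rw [Finset.sum_comm]
    refine Finset.sum_congr rfl fun j _ => ?_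
    rw [Finset.sum_eq_single (quad j)]
    · rw [if_pos rfl, C_1, one_mul]
      exact hquad j
    · intro b _ hb
      rw [if_neg hb, C_0, zero_mul]
    · intro h
      exact absurd (Finset.mem_univ _) h
  by_cases hm2 : m = 2
  · refine det_ne_zero _ _ (fun b => ∑ j, if b = quad j then 1 else 0) ?_
    rw [hsum]
    have h1 := hess_quad (N := {j // j ≠ s}) 0 (Or.inl ⟨hm2, rfl⟩)
    rw [C_0, zero_mul, zero_add] at h1
    exact h1
  · let sq : Big n m e s := ⟨mw s ⟨2, by omega⟩ s 0 (Nat.zero_le _), by
      rw [mw_s0]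
      simp only [mw]
      omega⟩
    have hsq : mo s sq.1 = X none ^ 2 := by
      show mo s (mw s ⟨2, by omega⟩ s 0 (Nat.zero_le _)) = _
      rw [mo_mw, pow_zero, mul_one]
    refine det_ne_zero _ _ (fun b => (if b = sq then 1 else 0) +
      ∑ j, if b = quad j then 1 else 0) ?_
    have h2 : ∑ b : Big n m e s, C ((if b = sq then 1 else 0) +
        ∑ j, if b = quad j then (1 : ℤ) else 0) * mo s b.1 =
        C 1 * X none ^ 2 +
          ∑ j : {j // j ≠ s}, (X (some j) : MvPolynomial (Option {j // j ≠ s}) ℤ) ^ 2 := by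
      rw [← hsum, ← hsq]
      simp only [C_add, add_mul, Finset.sum_add_distrib]
      congr 1
      rw [Finset.sum_eq_single sq]
      · rw [if_pos rfl]
      · intro b _ hb
        rw [if_neg hb, C_0, zero_mul]
      · intro h
        exact absurd (Finset.mem_univ _) h
    rw [h2]
    exact hess_quad (N := {j // j ≠ s}) 1 (Or.inr ⟨by omega, rfl⟩)

end UniwL

open UniwL in
/-- [UNIW] -/
theorem uniw : S_UNIW := by
  intro n m e hm he s
  have hf := dehW_gwform_eq (n := n) (m := m) (e := e) s hm he
  unfold degIdealW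
  rw [hf]
  refine exists_cop_ff (ee s hm he) _ _ (det_gg s hm he) _ ?_ ?_ ?_
  · exact Ideal.subset_span (Set.mem_insert _ _)
  · intro j
    exact Ideal.subset_span (Set.mem_insert_of_mem _ (Set.mem_insert_of_mem _ ⟨j, rfl⟩))
  · exact Ideal.subset_span (Set.mem_insert_of_mem _ (Set.mem_insert _ _))

end Pool.Agent.Helper21K9.WO
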